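import Pool.Agent.H621.RK.Rel

set_option autoImplicit false
set_option linter.unusedSectionVars false

/-!
# Compact tori
-/

open Matrix Finset Polynomial Module

noncomputable section

namespace Pool.Agent.H621.RK

open Pool.Agent.TH119.MX Pool.Agent.R917 Pool.Agent.R917.DT Pool.Agent.H621.BC

variable {r K : ℕ} {I : Type} [Fintype I] [DecidableEq I] {lev : Fin r → Fin K}
  {H : Set (Matrix (Fin r ⊕ I) (Fin r ⊕ I) ℂ)}

/-! ### Projectors -/

/-- A decomposition of the identity into projectors. -/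
structure Prj {ι : Type} [Fintype ι] [DecidableEq ι] (P : ι → Matrix I I ℂ) : Prop where
  sum : ∑ a, P a = 1
  mul : ∀ a b, P a * P b = if a = b then P a else 0

section prj

variable {ι : Type} [Fintype ι] [DecidableEq ι] {P : ι → Matrix I I ℂ} (hP : Prj P)

include hP

theorem Prj.mul_sum (m m' : ι → ℂ) :
    (∑ a, m a • P a) * (∑ a, m' a • P a) = ∑ a, (m a * m' a) • P a := by
  rw [Finset.sum_mul]
  refine Finset.sum_congr rfl fun a _ => ?_
  rw [Finset.mul_sum, Finset.sum_eq_single a]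
  · rw [smul_mul_assoc, mul_smul_comm, hP.mul, if_pos rfl, smul_smul]
  · intro b _ hb
    rw [smul_mul_assoc, mul_smul_comm, hP.mul, if_neg hb.symm, smul_zero, smul_zero]
  · intro h
    exact absurd (Finset.mem_univ a) h

theorem Prj.aeval (m : ι → ℂ) (Q : ℂ[X]) :
    Polynomial.aeval (∑ a, m a • P a) Q = ∑ a, (Q.eval (m a)) • P a := by
  induction Q using Polynomial.induction_on with
  | C c =>
    rw [aeval_C, Algebra.algebraMap_eq_smul_one, ← hP.sum, Finset.smul_sum]
    exact Finset.sum_congr rfl fun a _ => by rw [eval_C]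
  | add p q hp hq =>
    rw [map_add, hp, hq, ← Finset.sum_add_distrib]
    exact Finset.sum_congr rfl fun a _ => by rw [eval_add, add_smul]
  | monomial n c ih =>
    rw [pow_succ, ← mul_assoc, map_mul, aeval_X, ih, hP.mul_sum]
    exact Finset.sum_congr rfl fun a _ => by rw [eval_mul_X]

theorem Prj.nodal (m : ι → ℂ) :
    Polynomial.aeval (∑ a, m a • P a) (Lagrange.nodal (Finset.univ.image m) id) = 0 := by
  rw [hP.aeval]
  refine Finset.sum_eq_zero fun a _ => ?_
  have h1 : (Lagrange.nodal (Finset.univ.image m) (id : ℂ → ℂ)).eval (m a) = 0 :=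
    Lagrange.eval_nodal_at_node (v := (id : ℂ → ℂ)) (i := m a)
      (Finset.mem_image_of_mem m (Finset.mem_univ a))
  rw [h1, zero_smul]

end prj

/-! ### Linear algebra over the rational numbers -/

theorem exists_t (n : ℕ) : ∃ t : Fin n → ℝ, LinearIndependent ℚ t := by
  refine Module.le_rank_iff.1 ?_
  rw [Real.rank_rat_real]
  exact (Cardinal.nat_lt_continuum n).le

/-- The functionals which vanish on a subspace which is mapped to `U`. -/
theorem exists_W {n : ℕ} (φ : (Fin n → ℚ) →ₗ[ℚ] ℂ) (hφ : Function.Injective φ)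
    (U : Submodule ℚ ℂ) (T : Finset ℂ)
    (hT : ∀ q, φ q ∈ U → φ q ∈ Submodule.span ℚ (T : Set ℂ)) :
    ∃ W : Submodule ℚ (Fin n → ℚ), n ≤ finrank ℚ W + T.card ∧ ∀ c ∈ W, ∃ σ : ℂ →ₗ[ℚ] ℚ,
      (∀ u ∈ U, σ u = 0) ∧ ∀ q, σ (φ q) = ∑ j, c j * q j := by
  classical
  let Kr : Submodule ℚ (Fin n → ℚ) := U.comap φ
  have hK : finrank ℚ Kr ≤ T.card := by
    have h1 : finrank ℚ Kr = finrank ℚ (Kr.map φ) :=
      (LinearEquiv.finrank_eq (Submodule.equivMapOfInjective φ hφ Kr))
    have h2 : Kr.map φ ≤ Submodule.span ℚ (T : Set ℂ) := by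
      rintro _ ⟨q, hq, rfl⟩
      exact hT q hq
    rw [h1]
    have : FiniteDimensional ℚ (Submodule.span ℚ (T : Set ℂ)) :=
      FiniteDimensional.span_of_finite ℚ T.finite_toSet
    exact (Submodule.finrank_mono h2).trans (finrank_span_finset_le_card T)
  refine ⟨Kr.dualAnnihilator.comap (dotProductEquiv ℚ (Fin n)).toLinearMap, ?_, ?_⟩
  · have h1 := Subspace.finrank_add_finrank_dualAnnihilator_eq Kr
    rw [Module.finrank_fin_fun] at h1
    have h2 : finrank ℚ (Kr.dualAnnihilator.comap (dotProductEquiv ℚ (Fin n)).toLinearMap) =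
        finrank ℚ Kr.dualAnnihilator := by
      rw [show Kr.dualAnnihilator.comap (dotProductEquiv ℚ (Fin n)).toLinearMap =
        Kr.dualAnnihilator.map (dotProductEquiv ℚ (Fin n)).symm.toLinearMap from
          Submodule.comap_equiv_eq_map_symm _ _]
      exact LinearEquiv.finrank_map_eq _ _
    rw [h2]
    omega
  · intro c hc
    let φ' : (Fin n → ℚ) →ₗ[ℚ] (ℂ ⧸ U) := U.mkQ.comp φ
    have h1 : (dotProductEquiv ℚ (Fin n) c) ∈ (LinearMap.ker φ').dualAnnihilator := by
      have h2 : LinearMap.ker φ' = Kr := by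
        ext q
        rw [LinearMap.mem_ker, LinearMap.comp_apply, Submodule.mkQ_apply,
          Submodule.Quotient.mk_eq_zero]
        rfl
      rw [h2]
      exact hc
    rw [← LinearMap.range_dualMap_eq_dualAnnihilator_ker] at h1
    obtain ⟨f, hf⟩ := h1
    refine ⟨f.comp U.mkQ, fun u hu => ?_, fun q => ?_⟩
    · rw [LinearMap.comp_apply, Submodule.mkQ_apply, (Submodule.Quotient.mk_eq_zero U).2 hu,
        map_zero]
    · have h3 := congrArg (fun F : Module.Dual ℚ (Fin n → ℚ) => F q) hf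
      exact h3

/-- a linear form as an additive map to the complex numbers -/
def toAdd (σ : ℂ →ₗ[ℚ] ℚ) : ℂ →+ ℂ := (algebraMap ℚ ℂ).toAddMonoidHom.comp σ.toAddMonoidHom

theorem toAdd_apply (σ : ℂ →ₗ[ℚ] ℚ) (a : ℂ) : toAdd σ a = (σ a : ℂ) := rfl

/-! ### The main lemma -/

/-- the generators of the torus -/
def gen {n : ℕ} {ι : Type} [Fintype ι] (P : ι → Matrix I I ℂ) (w : ι → Fin n → ℤ) (j : Fin n) :
    Matrix I I ℂ := ∑ a, ((w a j : ℂ) * Complex.I) • P a

/-- **Compact tori.** -/
theorem torus {n : ℕ} {ι : Type} [Fintype ι] [DecidableEq ι] {P : ι → Matrix I I ℂ} (hP : Prj P)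
    (w : ι → Fin n → ℤ)
    (hl : ∀ j, ∃ x, RealM x ∧ ((x, gen P w j) : R2 r I) ∈ PP lev H) :
    ∃ W : Submodule ℚ (Fin n → ℚ),
      n ≤ finrank ℚ W + ∑ l : Fin K, Fintype.card {i // lev i = l} / 2 ∧
      ∀ c ∈ W, ((0, ∑ a, (∑ j, (w a j : ℂ) * (c j : ℂ)) • P a) : R2 r I) ∈ PP lev H := by
  classical
  obtain ⟨t, ht⟩ := exists_t n
  choose x hx hz using hl
  let x₀ : Matrix (Fin r) (Fin r) ℂ := ∑ j, (t j : ℂ) • x j
  let m : ι → ℂ := fun a => ∑ j, (t j : ℂ) * ((w a j : ℂ) * Complex.I)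
  have hy : ((x₀, ∑ a, m a • P a) : R2 r I) ∈ PP lev H := by
    have h1 : ((x₀, ∑ a, m a • P a) : R2 r I) = ∑ j, (t j : ℂ) • ((x j, gen P w j) : R2 r I) := by
      refine Prod.ext ?_ ?_
      · rw [Prod.fst_sum]
        rfl
      · rw [Prod.snd_sum]
        change ∑ a, m a • P a = ∑ j, (t j : ℂ) • gen P w j
        unfold gen
        simp only [Finset.smul_sum, smul_smul]
        rw [Finset.sum_comm]
        exact Finset.sum_congr rfl fun a _ => Finset.sum_smul
    rw [h1]
    exact Submodule.sum_mem _ fun j _ => (PP lev H).smul_mem _ (hz j)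
  have hx₀ : RealM x₀ := by
    intro i k
    change cj ((∑ j, (t j : ℂ) • x j) i k) = (∑ j, (t j : ℂ) • x j) i k
    rw [Matrix.sum_apply, map_sum]
    refine Finset.sum_congr rfl fun j _ => ?_
    rw [Matrix.smul_apply, smul_eq_mul, map_mul, hx j, Complex.conj_ofReal]
  obtain ⟨s, T, hs, hT, hsT⟩ := imag_count hy.1 hx₀
  let φ : (Fin n → ℚ) →ₗ[ℚ] ℂ :=
    { toFun := fun q => ∑ j, (q j : ℂ) * ((t j : ℂ) * Complex.I)
      map_add' := fun q q' => by
        rw [← Finset.sum_add_distrib]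
        exact Finset.sum_congr rfl fun j _ => by
          rw [Pi.add_apply, Rat.cast_add, add_mul]
      map_smul' := fun a q => by
        rw [RingHom.id_apply, Finset.smul_sum]
        exact Finset.sum_congr rfl fun j _ => by
          rw [Pi.smul_apply, smul_eq_mul, Rat.cast_mul, mul_assoc, Rat.smul_def] }
  have hφ_def : ∀ q, φ q = ∑ j, (q j : ℂ) * ((t j : ℂ) * Complex.I) := fun q => rfl
  have hφr : ∀ q, φ q = ((∑ j, (q j : ℝ) * t j : ℝ) : ℂ) * Complex.I := by
    intro q
    rw [hφ_def]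
    push_cast
    rw [Finset.sum_mul]
    exact Finset.sum_congr rfl fun j _ => by ring
  have hφ : Function.Injective φ := by
    rw [← LinearMap.ker_eq_bot, LinearMap.ker_eq_bot']
    intro q hq
    rw [hφr] at hq
    have h1 : (∑ j, (q j : ℝ) * t j : ℝ) = 0 := by
      have h2 := (mul_eq_zero.1 hq).resolve_right Complex.I_ne_zero
      exact_mod_cast h2
    funext j
    refine Fintype.linearIndependent_iff.1 ht q ?_ j
    rw [← h1]
    exact Finset.sum_congr rfl fun j _ => by rw [Rat.smul_def]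
  obtain ⟨W, hW, hW'⟩ := exists_W φ hφ (Submodule.span ℚ (s : Set ℂ)) T fun q hq => by
    refine hsT _ hq ?_
    rw [hφr, map_mul, Complex.conj_ofReal, Complex.conj_I, mul_neg]
  refine ⟨W, hW.trans (Nat.add_le_add_left hT _), fun c hc => ?_⟩
  obtain ⟨σ, h1, h2⟩ := hW' c hc
  have h3 : ∀ a, σ (m a) = ∑ j, c j * w a j := by
    intro a
    have h4 : m a = φ (fun j => (w a j : ℚ)) := by
      rw [hφ_def]
      refine Finset.sum_congr rfl fun j _ => ?_
      rw [Rat.cast_intCast]
      ring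
    rw [h4, h2]
  obtain ⟨x', h4, h5⟩ := PP_rep hs (hP.nodal m) hy (toAdd σ)
    (Q := Lagrange.interpolate (Finset.univ.image m) id (fun b => toAdd σ b)) (fun a ha =>
      Lagrange.eval_interpolate_at_node (fun b => toAdd σ b) (Function.injective_id.injOn) ha)
  rw [h5 (fun a ha => by
    rw [toAdd_apply, h1 a (Submodule.subset_span ha), Rat.cast_zero]), hP.aeval] at h4
  convert h4 using 1
  refine Prod.ext rfl ?_
  change ∑ a, _ = ∑ a, _
  refine Finset.sum_congr rfl fun a _ => ?_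
  congr 1
  have h6 : (Lagrange.interpolate (Finset.univ.image m) id (fun b => toAdd σ b)).eval (m a) =
      toAdd σ (m a) := Lagrange.eval_interpolate_at_node (fun b => toAdd σ b)
        (Function.injective_id.injOn) (Finset.mem_image_of_mem m (Finset.mem_univ a))
  rw [h6, toAdd_apply, h3]
  push_cast
  exact Finset.sum_congr rfl fun j _ => by ring

end Pool.Agent.H621.RK
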