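import Pool.Agent.H621.RK.Inv
import Pool.Agent.H621.RK.Tor

set_option autoImplicit false
set_option linter.unusedSectionVars false

/-!
# Compact tori in the Hodge group
-/

open Module Matrix Polynomial

noncomputable section

namespace Pool.Agent.H621.RK

open Pool.Agent.Y102 Pool.Agent.W516.DR Pool.Agent.H204R3.GP Pool.Agent.W516.KC
  Pool.Agent.H204R3.SP Pool.Agent.TH119.MX Pool.Agent.R917 Pool.Agent.R917.DT
  Pool.Agent.R917.EC Pool.Agent.H621.BC Pool.Agent.R917.OM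

section gen

variable {r K : ℕ} {I : Type} [Fintype I] [DecidableEq I] {lev : Fin r → Fin K}
  {H : Set (Matrix (Fin r ⊕ I) (Fin r ⊕ I) ℂ)}

theorem PP_mapF (hH : AlgGrp QQ H) {z : R2 r I} (hz : z ∈ PP lev H) (f : ℂ →ₗ[QQ] ℂ) :
    ((z.1.map f, z.2.map f) : R2 r I) ∈ PP lev H := by
  refine ⟨fun i j hij => ?_, fun d => ?_⟩
  · change f (z.1 i j) = 0
    rw [hz.1 i j hij, map_zero]
  · have h1 := hH.stab_map f (hz.2 d)
    convert h1 using 1
    rw [bd_apply, bd_apply, fromBlocks_map]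
    congr 1 <;>
    · ext i j
      exact (map_zero f).symm

/-- the conjugation as a linear map over the rational numbers -/
def cjF : ℂ →ₗ[QQ] ℂ where
  toFun := cj
  map_add' := map_add cj
  map_smul' c x := by
    obtain ⟨_, q, rfl⟩ := c
    have h1 : ∀ x : ℂ, (⟨(algebraMap ℚ ℂ) q, ⟨q, rfl⟩⟩ : QQ) • x = q • x := by
      intro x
      rw [Algebra.smul_def, Algebra.smul_def]
      rfl
    rw [RingHom.id_apply, h1, h1, Rat.smul_def, map_mul, map_ratCast, Rat.smul_def]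

/-- Real lifts. -/
theorem real_lift (hH : AlgGrp QQ H) {x : Matrix (Fin r) (Fin r) ℂ} {y : Matrix I I ℂ}
    (hz : ((x, y) : R2 r I) ∈ PP lev H) (hy : RealM y) :
    ∃ x' : Matrix (Fin r) (Fin r) ℂ, RealM x' ∧ ((x', y) : R2 r I) ∈ PP lev H := by
  have h1 := PP_mapF hH hz cjF
  have h2 := (PP lev H).smul_mem (2⁻¹ : ℂ) ((PP lev H).add_mem hz h1)
  refine ⟨(2⁻¹ : ℂ) • (x + x.map cjF), fun i j => ?_, ?_⟩
  · rw [Matrix.smul_apply, Matrix.add_apply, Matrix.map_apply, smul_eq_mul, map_mul, map_add]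
    change cj 2⁻¹ * (cj (x i j) + cj (cj (x i j))) = 2⁻¹ * (x i j + cj (x i j))
    rw [Complex.conj_conj, map_inv₀, Complex.conj_ofNat, add_comm]
  · convert h2 using 1
    refine Prod.ext rfl ?_
    change y = (2⁻¹ : ℂ) • (y + y.map cjF)
    have h3 : y.map cjF = y := by
      ext i j
      exact hy i j
    rw [h3, ← two_smul ℂ y, smul_smul]
    norm_num

/-- A matrix in terms of its components. -/
theorem comp_sum (y : Matrix I I ℂ) : ∃ (s : Finset (Basis.ofVectorSpaceIndex ℚ ℂ)),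
    y = ∑ b ∈ s, (Basis.ofVectorSpace ℚ ℂ b) •
      y.map (lamF ((Basis.ofVectorSpace ℚ ℂ).coord b)) := by
  obtain ⟨s, hs⟩ := exists_coordsC (fun p : I × I => y p.1 p.2)
  refine ⟨s, ?_⟩
  ext i j
  rw [Matrix.sum_apply]
  have h2 := hs (i, j)
  simp only at h2
  rw [h2]
  refine Finset.sum_congr rfl fun b _ => ?_
  rw [Matrix.smul_apply, Matrix.map_apply, smul_eq_mul, mul_comm, lamF_apply]

section norms

attribute [local instance] Matrix.linftyOpNormedRing Matrix.linftyOpNormedAlgebra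

set_option backward.isDefEq.respectTransparency false in
theorem exp_bd (y : Matrix I I ℂ) :
    NormedSpace.exp (bd ((0, y) : R2 r I)) = fromBlocks 1 0 0 (NormedSpace.exp y) := by
  have h1 : Continuous (bd (r := r) (I := I)) := by
    refine continuous_matrix fun i j => ?_
    rcases i with i | i <;> rcases j with j | j
    · exact continuous_fst.matrix_elem i j
    · exact continuous_const
    · exact continuous_const
    · exact continuous_snd.matrix_elem i j
  have h2 := NormedSpace.map_exp (bd (r := r) (I := I)) h1 ((0 : Matrix (Fin r) (Fin r) ℂ), y)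
  refine h2.symm.trans ?_
  rw [bd_apply, Prod.fst_exp, Prod.snd_exp, NormedSpace.exp_zero]

end norms

/-- The exponentials. -/
theorem exp_PP (hH : AlgGrp QQ H) {y : Matrix I I ℂ} (hy : ((0, y) : R2 r I) ∈ PP lev H) :
    fromBlocks 1 0 0 (NormedSpace.exp y) ∈ H := by
  rw [← exp_bd]
  exact exp_mem hH hy.2

end gen

variable {r K h : ℕ} {A : AbVar h} {lev : Fin r → Fin K}
  {H : Set (Matrix (Fin r ⊕ Fin (2 * h)) (Fin r ⊕ Fin (2 * h)) ℂ)}

/-- the complex matrices which are combinations of elements of the Lie algebra -/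
def NAc (A : AbVar h) (y : Matrix (Fin (2 * h)) (Fin (2 * h)) ℂ) : Prop :=
  ∀ lam : ℂ →ₗ[ℚ] ℚ, ∃ Y ∈ A.NA, rm Y = y.map (lamF lam)

theorem Lif_of_comp (hdet : Det A) (hpt : PtR A lev H) {y : Matrix (Fin (2 * h)) (Fin (2 * h)) ℂ}
    (hy : NAc A y) : Lif lev H y := by
  obtain ⟨s, hs⟩ := comp_sum y
  rw [hs]
  have h1 : ∀ t : Finset (Basis.ofVectorSpaceIndex ℚ ℂ), Lif lev H (∑ b ∈ t,
      (Basis.ofVectorSpace ℚ ℂ b) • y.map (lamF ((Basis.ofVectorSpace ℚ ℂ).coord b))) := by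
    intro t
    classical
    induction t using Finset.induction_on with
    | empty =>
      rw [Finset.sum_empty]
      exact Lif.zero
    | insert a t ha ih =>
      rw [Finset.sum_insert ha]
      refine Lif.add (Lif.smul _ ?_) ih
      obtain ⟨Y, hY, hYy⟩ := hy ((Basis.ofVectorSpace ℚ ℂ).coord a)
      rw [← hYy]
      exact lift_NA hdet hpt hY
  exact h1 s

/-- The endomorphism with a given rational matrix. -/
theorem exists_rm (M : Matrix (Fin (2 * h)) (Fin (2 * h)) ℂ) (lam : ℂ →ₗ[ℚ] ℚ) :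
    ∃ Y : Module.End ℚ A.H1, rm Y = M.map (lamF lam) ∧
      ∀ j b, Y (Pi.single j 1) b = lam (M j b) := by
  refine ⟨Matrix.toLin' (Matrix.of fun b j => lam (M j b)), ?_, fun j b => ?_⟩
  · ext j b
    change ((Matrix.toLin' (Matrix.of fun b j => lam (M j b)) (eb A j) b : ℚ) : ℂ) = _
    unfold eb
    rw [Matrix.toLin'_apply, Matrix.mulVec_single_one]
    rfl
  · rw [Matrix.toLin'_apply, Matrix.mulVec_single_one]
    rfl

/-- **The derivatives of curves of matrices which fix the Hodge tensors.** -/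
theorem NAc_of_curve {M : ℝ → Matrix (Fin (2 * h)) (Fin (2 * h)) ℂ}
    {y : Matrix (Fin (2 * h)) (Fin (2 * h)) ℂ} (h0 : M 0 = 1)
    (hd : ∀ i j, HasDerivAt (fun θ => M θ i j) (y i j) 0)
    (hF : ∀ (m : ℕ) (ψ : MultilinearMap ℚ (fun _ : Fin m × Fin 2 => A.H1) ℚ),
      IsHodgeTensor (A.per : A.H1 →+ (Fin h → ℂ)) ψ → ∀ θ, Fx (cf (A := A) ψ) (M θ)) :
    NAc A y := by
  intro lam
  obtain ⟨Y, h1, h2⟩ := exists_rm (A := A) y lam
  refine ⟨Y, fun m ψ hψ _ => kills_of fun J => ?_, h1⟩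
  have h3 := act_comp (Fx_deriv h0 hd (hF m ψ hψ)) lam J
  rw [← h3]
  refine Finset.sum_congr rfl fun k _ => Finset.sum_congr rfl fun b _ => ?_
  rw [h2]

theorem NAc.mem_nn {y : Matrix (Fin (2 * h)) (Fin (2 * h)) ℂ} (hH : AlgGrp QQ H)
    (hz : ((0, y) : R2 r (Fin (2 * h))) ∈ PP lev H) (hy : NAc A y) (lam : ℂ →ₗ[ℚ] ℚ) :
    ∃ Y ∈ nn A lev H, rm Y = y.map (lamF lam) := by
  obtain ⟨Y, h1, h2⟩ := hy lam
  refine ⟨Y, ⟨h1, ?_⟩, h2⟩
  have h3 := PP_comp hH hz lam
  rw [h2]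
  convert h3 using 1
  refine Prod.ext ?_ rfl
  ext i j
  exact (map_zero (lamF lam)).symm

/-- Matrices whose components are in a subspace are combinations. -/
theorem mem_span_comp {𝔥 : Submodule ℚ (Module.End ℚ A.H1)}
    {y : Matrix (Fin (2 * h)) (Fin (2 * h)) ℂ}
    (hy : ∀ lam : ℂ →ₗ[ℚ] ℚ, ∃ Y ∈ 𝔥, rm Y = y.map (lamF lam)) :
    y ∈ Submodule.span ℂ {Z | ∃ Y ∈ 𝔥, Z = rm Y} := by
  obtain ⟨s, hs⟩ := comp_sum y
  rw [hs]
  refine Submodule.sum_mem _ fun b _ => Submodule.smul_mem _ _ (Submodule.subset_span ?_)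
  obtain ⟨Y, hY, h1⟩ := hy ((Basis.ofVectorSpace ℚ ℂ).coord b)
  exact ⟨Y, hY, h1.symm⟩

/-- Combinations of elements of the ideal. -/
theorem PP_of_span {y : Matrix (Fin (2 * h)) (Fin (2 * h)) ℂ}
    (hy : y ∈ Submodule.span ℂ {Z | ∃ Y ∈ nn A lev H, Z = rm Y}) :
    ((0, y) : R2 r (Fin (2 * h))) ∈ PP lev H := by
  induction hy using Submodule.span_induction with
  | mem Z hZ =>
    obtain ⟨Y, hY, rfl⟩ := hZ
    exact hY.2
  | zero => exact (PP lev H).zero_mem
  | add a b _ _ ha hb =>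
    have h1 := (PP lev H).add_mem ha hb
    rwa [Prod.mk_add_mk, add_zero] at h1
  | smul c a _ ha =>
    have h1 := (PP lev H).smul_mem c ha
    rwa [Prod.smul_mk, smul_zero] at h1

/-! ### Tori -/

/-- the element of the torus -/
def tm {n : ℕ} {ι : Type} [Fintype ι] (P : ι → Matrix (Fin (2 * h)) (Fin (2 * h)) ℂ)
    (w : ι → Fin n → ℤ) (z : Fin n → ℂ) : Matrix (Fin (2 * h)) (Fin (2 * h)) ℂ :=
  ∑ a, (∏ j, z j ^ w a j) • P a

/-- the curve -/
def cur {n : ℕ} (j : Fin n) (θ : ℝ) : Fin n → ℂ :=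
  Function.update (fun _ => 1) j (Complex.exp (θ * Complex.I))

theorem tm_cur {n : ℕ} {ι : Type} [Fintype ι]
    (P : ι → Matrix (Fin (2 * h)) (Fin (2 * h)) ℂ) (w : ι → Fin n → ℤ) (j : Fin n) (θ : ℝ) :
    tm P w (cur j θ) = ∑ a, Complex.exp (θ * ((w a j : ℂ) * Complex.I)) • P a := by
  unfold tm cur
  refine Finset.sum_congr rfl fun a _ => ?_
  congr 1
  rw [Finset.prod_eq_single j]
  · rw [Function.update_self, ← Complex.exp_int_mul]
    congr 1
    ring
  · intro b _ hb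
    rw [Function.update_of_ne hb]
    exact _root_.one_zpow _
  · intro hj
    exact absurd (Finset.mem_univ _) hj

theorem tm_deriv {n : ℕ} {ι : Type} [Fintype ι]
    (P : ι → Matrix (Fin (2 * h)) (Fin (2 * h)) ℂ) (w : ι → Fin n → ℤ) (k : Fin n)
    (i j : Fin (2 * h)) :
    HasDerivAt (fun θ : ℝ => tm P w (cur k θ) i j) (gen P w k i j) 0 := by
  have h1 : (fun θ : ℝ => tm P w (cur k θ) i j) = fun θ : ℝ =>
      ∑ a, Complex.exp (θ * ((w a k : ℂ) * Complex.I)) * P a i j := by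
    funext θ
    rw [tm_cur, Matrix.sum_apply]
    rfl
  have h2 : gen P w k i j = ∑ a, Complex.exp (((0 : ℝ) : ℂ) * ((w a k : ℂ) * Complex.I)) *
      (1 * ((w a k : ℂ) * Complex.I)) * P a i j := by
    unfold gen
    rw [Matrix.sum_apply]
    refine Finset.sum_congr rfl fun a _ => ?_
    rw [Complex.ofReal_zero, zero_mul, Complex.exp_zero, one_mul, one_mul]
    rfl
  rw [h1, h2]
  refine HasDerivAt.fun_sum fun a _ => HasDerivAt.mul_const ?_ _
  exact (Complex.ofRealCLM.hasDerivAt.mul_const ((w a k : ℂ) * Complex.I)).cexp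

theorem cur_norm {n : ℕ} (j : Fin n) (θ : ℝ) (k : Fin n) : ‖cur j θ k‖ = 1 := by
  unfold cur
  by_cases hk : k = j
  · subst hk
    rw [Function.update_self, Complex.norm_exp_ofReal_mul_I]
  · rw [Function.update_of_ne hk, norm_one]

theorem gen_real {n : ℕ} {ι : Type} [Fintype ι]
    {P : ι → Matrix (Fin (2 * h)) (Fin (2 * h)) ℂ} {w : ι → Fin n → ℤ}
    (hr : ∀ z : Fin n → ℂ, (∀ j, ‖z j‖ = 1) → RealM (tm P w z)) (k : Fin n) :
    RealM (gen P w k) := by
  intro i j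
  have h1 := tm_deriv P w k i j
  have h2 : HasDerivAt (fun θ : ℝ => cj (tm P w (cur k θ) i j)) (cj (gen P w k i j)) 0 :=
    h1.star_conj
  have h3 : (fun θ : ℝ => cj (tm P w (cur k θ) i j)) = fun θ : ℝ => tm P w (cur k θ) i j :=
    funext fun θ => hr _ (cur_norm k θ) i j
  rw [h3] at h2
  exact h2.unique h1

/-- **Compact tori in the Hodge group.** -/
theorem torus_hodge (hdet : Det A) (hpt : PtR A lev H) {n : ℕ} {ι : Type} [Fintype ι]
    [DecidableEq ι] {P : ι → Matrix (Fin (2 * h)) (Fin (2 * h)) ℂ} (hP : Prj P)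
    (w : ι → Fin n → ℤ)
    (hr : ∀ z : Fin n → ℂ, (∀ j, ‖z j‖ = 1) → RealM (tm P w z))
    (hF : ∀ (m : ℕ) (ψ : MultilinearMap ℚ (fun _ : Fin m × Fin 2 => A.H1) ℚ),
      IsHodgeTensor (A.per : A.H1 →+ (Fin h → ℂ)) ψ → ∀ z : Fin n → ℂ, (∀ j, ‖z j‖ = 1) →
        Fx (cf (A := A) ψ) (tm P w z)) :
    ∃ W : Submodule ℚ (Fin n → ℚ),
      n ≤ finrank ℚ W + ∑ l : Fin K, Fintype.card {i // lev i = l} / 2 ∧
      ∀ c ∈ W, (∑ a, (∑ j, (w a j : ℂ) * (c j : ℂ)) • P a) ∈
        Submodule.span ℂ {Z | ∃ Y ∈ nn A lev H, Z = rm Y} := by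
  have hN : ∀ j, NAc A (gen P w j) := by
    intro j
    refine NAc_of_curve (M := fun θ => tm P w (cur j θ)) ?_ (tm_deriv P w j)
      fun m ψ hψ θ => hF m ψ hψ _ (cur_norm j θ)
    change tm P w (cur j 0) = 1
    rw [tm_cur, ← hP.sum]
    refine Finset.sum_congr rfl fun a _ => ?_
    rw [Complex.ofReal_zero, zero_mul, Complex.exp_zero, one_smul]
  obtain ⟨W, h1, h2⟩ := torus (lev := lev) (H := H) hP w fun j => by
    obtain ⟨x, hx⟩ := Lif_of_comp hdet hpt (hN j)
    exact real_lift hpt.grp hx (gen_real hr j)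
  refine ⟨W, h1, fun c hc => mem_span_comp (NAc.mem_nn hpt.grp (h2 c hc) ?_)⟩
  -- the combination is in the Lie algebra
  have h3 : (∑ a, (∑ j, (w a j : ℂ) * (c j : ℂ)) • P a) =
      ∑ j, ((c j : ℂ) * (-Complex.I)) • gen P w j := by
    unfold gen
    simp only [Finset.smul_sum, smul_smul]
    rw [Finset.sum_comm]
    refine Finset.sum_congr rfl fun a _ => ?_
    rw [Finset.sum_smul]
    refine Finset.sum_congr rfl fun j _ => ?_
    congr 1
    linear_combination ((w a j : ℂ) * (c j : ℂ)) * Complex.I_mul_I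
  rw [h3]
  intro lam
  have h4 : ∀ s : Finset (Fin n), ∃ Y ∈ A.NA, rm Y =
      (∑ j ∈ s, ((c j : ℂ) * (-Complex.I)) • gen P w j).map (lamF lam) := by
    intro s
    classical
    induction s using Finset.induction_on with
    | empty =>
      refine ⟨0, A.NA.zero_mem, ?_⟩
      rw [Finset.sum_empty, rm_zero]
      ext i j
      exact (map_zero (lamF lam)).symm
    | insert a s ha ih =>
      obtain ⟨Y, hY, h5⟩ := ih
      obtain ⟨Y', hY', h6⟩ := hN a (lam ∘ₗ LinearMap.mulLeft ℚ ((c a : ℂ) * (-Complex.I)))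
      refine ⟨Y' + Y, A.NA.add_mem hY' hY, ?_⟩
      rw [Finset.sum_insert ha, rm_add, h5, h6]
      ext i j
      rw [Matrix.add_apply, Matrix.map_apply, Matrix.map_apply, Matrix.map_apply,
        Matrix.add_apply, map_add]
      rfl
  exact h4 Finset.univ

end Pool.Agent.H621.RK
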