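import Pool.Agent.H621.RK.Jor

set_option autoImplicit false
set_option linter.unusedSectionVars false

/-!
# The imaginary eigenvalues of real matrices
-/

open Matrix Finset Polynomial

noncomputable section

namespace Pool.Agent.H621.RK

/-- the complex conjugation as an additive map -/
abbrev cj : ℂ →+* ℂ := starRingEnd ℂ

/-- real matrices -/
def RealM {m n : Type} (M : Matrix m n ℂ) : Prop := ∀ i j, cj (M i j) = M i j

theorem RealM.roots {n : Type} [Fintype n] [DecidableEq n] {M : Matrix n n ℂ} (hM : RealM M) :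
    M.charpoly.roots.map cj = M.charpoly.roots := by
  have h1 : M.map cj = M := by
    ext i j
    exact hM i j
  have h2 := Matrix.charpoly_map M cj
  rw [h1] at h2
  have h3 := Polynomial.Splits.roots_map (IsAlgClosed.splits M.charpoly) cj
  rw [← h2] at h3
  exact h3.symm

/-- the roots in the upper half plane -/
def up (R : Multiset ℂ) : Multiset ℂ := R.filter fun a => 0 < a.im

theorem up_card {R : Multiset ℂ} (hR : R.map cj = R) : (up R).card ≤ R.card / 2 := by
  have h1 : (R.filter fun a => a.im < 0).card = (up R).card := by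
    have h2 : R.filter (fun a => a.im < 0) = (up R).map cj := by
      conv_lhs => rw [← hR]
      rw [Multiset.filter_map]
      congr 1
      unfold up
      refine Multiset.filter_congr fun a _ => ?_
      simp
    rw [h2, Multiset.card_map]
  have h3 : (R.filter fun a => a.im < 0).card ≤ (R.filter fun a => ¬ 0 < a.im).card := by
    refine Multiset.card_le_card (Multiset.monotone_filter_right R fun a ha => ?_)
    exact not_lt.2 ha.le
  have h4 := congrArg Multiset.card (Multiset.filter_add_not (fun a : ℂ => 0 < a.im) R)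
  rw [Multiset.card_add] at h4
  change (up R).card + _ = _ at h4
  omega

/-- the differences -/
def dif (R : Multiset ℂ) : Finset ℂ := (up R).toFinset.image fun a => a - cj a

theorem dif_card {R : Multiset ℂ} (hR : R.map cj = R) : (dif R).card ≤ R.card / 2 :=
  (Finset.card_image_le.trans (Multiset.toFinset_card_le _)).trans (up_card hR)

theorem mem_dif {R : Multiset ℂ} (hR : R.map cj = R) {a : ℂ} (ha : a ∈ R) :
    a - cj a ∈ Submodule.span ℚ (dif R : Set ℂ) := by
  rcases lt_trichotomy a.im 0 with h | h | h
  · have h1 : cj a ∈ R := by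
      rw [← hR]
      exact Multiset.mem_map_of_mem cj ha
    have h2 : cj a - cj (cj a) ∈ dif R := by
      refine Finset.mem_image.2 ⟨cj a, ?_, rfl⟩
      rw [Multiset.mem_toFinset]
      exact Multiset.mem_filter.2 ⟨h1, by simpa using h⟩
    have h3 : a - cj a = -(cj a - cj (cj a)) := by
      rw [Complex.conj_conj]
      ring
    rw [h3]
    exact Submodule.neg_mem _ (Submodule.subset_span h2)
  · have h1 : cj a = a := Complex.conj_eq_iff_im.2 h
    rw [h1, sub_self]
    exact Submodule.zero_mem _
  · refine Submodule.subset_span (Finset.mem_coe.2 (Finset.mem_image.2 ⟨a, ?_, rfl⟩))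
    rw [Multiset.mem_toFinset]
    exact Multiset.mem_filter.2 ⟨ha, h⟩

/-- the difference with the conjugate, as a rational linear map -/
def dl : ℂ →ₗ[ℚ] ℂ := LinearMap.id - (cj.toAddMonoidHom.toRatLinearMap)

theorem dl_apply (a : ℂ) : dl a = a - cj a := rfl

theorem cnt_eq {r K : ℕ} (lev : Fin r → Fin K) (l : Fin K) (M : Matrix (Fin r) (Fin r) ℂ) :
    (M.toSquareBlock lev l).charpoly.roots.card = Fintype.card {i // lev i = l} := by
  rw [IsAlgClosed.card_roots_eq_natDegree, Matrix.charpoly_natDegree_eq_dim]

theorem dvd_nodal {P : ℂ[X]} (hP : P.Monic) {r : ℕ} (hr : P.natDegree ≤ r) :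
    P ∣ Lagrange.nodal P.roots.toFinset id ^ r := by
  classical
  obtain ⟨R, hR⟩ : ∃ R, R = P.roots := ⟨_, rfl⟩
  have h2 : P = (R.map fun a => X - C a).prod := by
    rw [hR]
    exact (IsAlgClosed.splits P).eq_prod_roots_of_monic hP
  have h3 : (R.map fun a => X - C a).prod = ∏ a ∈ R.toFinset, (X - C a : ℂ[X]) ^ R.count a :=
    Finset.prod_multiset_map_count _ _
  have h4 : R.card ≤ r := by
    rw [hR, IsAlgClosed.card_roots_eq_natDegree]
    exact hr
  rw [← hR, h2, h3]
  unfold Lagrange.nodal
  rw [← Finset.prod_pow]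
  exact Finset.prod_dvd_prod_of_dvd _ _ fun a _ =>
    pow_dvd_pow _ ((Multiset.count_le_card _ _).trans h4)

/-- **The imaginary eigenvalues of real block triangular matrices.** -/
theorem imag_count {r K : ℕ} {lev : Fin r → Fin K} {M : Matrix (Fin r) (Fin r) ℂ}
    (hB : ∀ i j, lev j < lev i → M i j = 0) (hM : RealM M) :
    ∃ s T : Finset ℂ, aeval M (Lagrange.nodal s id ^ r) = 0 ∧
      T.card ≤ ∑ l : Fin K, Fintype.card {i // lev i = l} / 2 ∧
      ∀ v ∈ Submodule.span ℚ (s : Set ℂ), cj v = -v → v ∈ Submodule.span ℚ (T : Set ℂ) := by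
  classical
  let R : Fin K → Multiset ℂ := fun l => (M.toSquareBlock lev l).charpoly.roots
  have hR : ∀ l, (R l).map cj = R l := fun l => RealM.roots fun i j => hM _ _
  have hBT : M.BlockTriangular lev := fun i j hij => hB i j hij
  refine ⟨M.charpoly.roots.toFinset, Finset.univ.biUnion fun l => dif (R l), ?_, ?_, ?_⟩
  · have hd : M.charpoly.natDegree = r := by
      rw [Matrix.charpoly_natDegree_eq_dim, Fintype.card_fin]
    obtain ⟨Q, hQ⟩ := dvd_nodal (Matrix.charpoly_monic M) hd.le
    rw [hQ, map_mul, Matrix.aeval_self_charpoly, zero_mul]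
  · refine (Finset.card_biUnion_le).trans (Finset.sum_le_sum fun l _ => ?_)
    refine (dif_card (hR l)).trans ?_
    rw [cnt_eq]
  · intro v hv hcv
    have h1 : M.charpoly = ∏ l, (M.toSquareBlock lev l).charpoly := by
      rw [hBT.charpoly]
      refine Finset.prod_subset (Finset.subset_univ _) fun l _ hl => ?_
      have h2 : IsEmpty {i // lev i = l} :=
        ⟨fun i => hl (Finset.mem_image.2 ⟨i.1, Finset.mem_univ _, i.2⟩)⟩
      rw [Matrix.charpoly, Matrix.det_isEmpty]
    have h2 : ∀ a ∈ M.charpoly.roots.toFinset, ∃ l, a ∈ R l := by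
      intro a ha
      rw [Multiset.mem_toFinset, mem_roots (Matrix.charpoly_monic M).ne_zero, IsRoot.def, h1,
        eval_prod] at ha
      obtain ⟨l, -, hl⟩ := Finset.prod_eq_zero_iff.1 ha
      exact ⟨l, (mem_roots (Matrix.charpoly_monic _).ne_zero).2 hl⟩
    have h3 : dl v ∈ Submodule.span ℚ
        ((Finset.univ.biUnion fun l => dif (R l) : Finset ℂ) : Set ℂ) := by
      have h4 : Submodule.span ℚ (M.charpoly.roots.toFinset : Set ℂ) ≤
          (Submodule.span ℚ ((Finset.univ.biUnion fun l => dif (R l) : Finset ℂ) :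
            Set ℂ)).comap dl := by
        rw [Submodule.span_le]
        intro a ha
        obtain ⟨l, hl⟩ := h2 a ha
        refine Submodule.span_mono ?_ (mem_dif (hR l) hl)
        exact Finset.coe_subset.2 (Finset.subset_biUnion_of_mem (fun l => dif (R l))
          (Finset.mem_univ l))
      exact h4 hv
    rw [dl_apply, hcv, sub_neg_eq_add] at h3
    have h5 : v = (1 / 2 : ℚ) • (v + v) := by
      rw [← two_smul ℚ v, smul_smul]
      norm_num
    rw [h5]
    exact Submodule.smul_mem _ _ h3

end Pool.Agent.H621.RK
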