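import Pool.Agent.H621.RK.Lft

set_option autoImplicit false
set_option linter.unusedSectionVars false

/-!
# Invariant tensors of the Hodge group
-/

open Module Matrix

noncomputable section

namespace Pool.Agent.H621.RK

open Pool.Agent.Y102 Pool.Agent.W516.DR Pool.Agent.H204R3.GP Pool.Agent.W516.KC
  Pool.Agent.H204R3.SP Pool.Agent.TH119.MX Pool.Agent.TH119.DR Pool.Agent.R917
  Pool.Agent.R917.DT Pool.Agent.R917.EC Pool.Agent.W437.HK

section tensors

variable {κ B : Type} [Fintype κ] [DecidableEq κ] [Fintype B] [DecidableEq B]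

/-- the complex coefficients -/
def cc (c : (κ → B) → ℚ) : (κ → B) → ℂ := fun J => (c J : ℂ)

/-- The matrix, acting from the right on rows, fixes the form with the coefficients `c`. -/
def Fx (c : (κ → B) → ℚ) (M : Matrix B B ℂ) : Prop := pull Mᵀ (cc c) = cc c

theorem Fx_one (c : (κ → B) → ℚ) : Fx c (1 : Matrix B B ℂ) := by
  unfold Fx
  rw [Matrix.transpose_one, pull_one]

theorem Fx_mul {c : (κ → B) → ℚ} {M N : Matrix B B ℂ} (hM : Fx c M) (hN : Fx c N) :
    Fx c (M * N) := by
  unfold Fx at *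
  rw [Matrix.transpose_mul, ← pull_pull, hN, hM]

theorem Fx_inv {c : (κ → B) → ℚ} {M N : Matrix B B ℂ} (h : N * M = 1) (hM : Fx c M) :
    Fx c N := by
  unfold Fx at *
  conv_lhs => rw [← hM]
  rw [pull_pull, ← Matrix.transpose_mul, h, Matrix.transpose_one, pull_one]

/-- the equations -/
def eqs (c : (κ → B) → ℚ) : Set (MvPolynomial (B × B) ℚ) :=
  {p | ∃ J : κ → B, p = ∑ L : κ → B, (∏ k, MvPolynomial.X (J k, L k)) * MvPolynomial.C (c L) -
    MvPolynomial.C (c J)}

theorem Fx_iff (c : (κ → B) → ℚ) (M : Matrix B B ℂ) :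
    Fx c M ↔ ∀ p ∈ eqs c, MvPolynomial.aeval (fun b : B × B => M b.1 b.2) p = 0 := by
  have h1 : ∀ J : κ → B, MvPolynomial.aeval (fun b : B × B => M b.1 b.2)
      (∑ L : κ → B, (∏ k, MvPolynomial.X (J k, L k)) * MvPolynomial.C (c L) -
        MvPolynomial.C (c J)) = pull Mᵀ (cc c) J - cc c J := by
    intro J
    rw [map_sub, map_sum, MvPolynomial.aeval_C]
    congr 1
    unfold pull
    refine Finset.sum_congr rfl fun L _ => ?_
    rw [map_mul, map_prod, MvPolynomial.aeval_C]
    congr 1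
    exact Finset.prod_congr rfl fun k _ => by rw [MvPolynomial.aeval_X, Matrix.transpose_apply]
  constructor
  · rintro h _ ⟨J, rfl⟩
    rw [h1, congrFun h J, sub_self]
  · intro h
    funext J
    have h2 := h _ ⟨J, rfl⟩
    rw [h1, sub_eq_zero] at h2
    exact h2

/-- **The derivative of a curve of invariant matrices.** -/
theorem Fx_deriv {c : (κ → B) → ℚ} {M : ℝ → Matrix B B ℂ} {y : Matrix B B ℂ}
    (h0 : M 0 = 1) (hd : ∀ i j, HasDerivAt (fun θ => M θ i j) (y i j) 0)
    (hF : ∀ θ, Fx c (M θ)) : act yᵀ (cc c) = 0 := by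
  refine evalF_ext fun x => ?_
  have e0 : evalF (0 : (κ → B) → ℂ) x = 0 := evalF_zero x
  rw [e0, evalF_act]
  have h1 : ∀ θ, evalF (cc c) (fun k => (M θ)ᵀ *ᵥ x k) = evalF (cc c) x := by
    intro θ
    rw [← evalF_pull, hF θ]
  have hx : ∀ k o, HasDerivAt (fun θ : ℝ => ((M θ)ᵀ *ᵥ x k) o) ((yᵀ *ᵥ x k) o) 0 := by
    intro k o
    simp only [mulVec, dotProduct, Matrix.transpose_apply]
    exact HasDerivAt.fun_sum fun b _ => (hd b o).mul_const _
  have h2 : HasDerivAt (fun θ : ℝ => evalF (cc c) (fun k => (M θ)ᵀ *ᵥ x k))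
      (∑ L : κ → B, cc c L * ∑ k, (∏ l ∈ Finset.univ.erase k, ((M 0)ᵀ *ᵥ x l) (L l)) •
        (yᵀ *ᵥ x k) (L k)) 0 := by
    unfold evalF
    refine HasDerivAt.fun_sum fun L _ => ?_
    exact (HasDerivAt.fun_finsetProd fun k _ => hx k (L k)).const_mul (cc c L)
  have h3 : HasDerivAt (fun θ : ℝ => evalF (cc c) (fun k => (M θ)ᵀ *ᵥ x k)) 0 0 := by
    have h4 : (fun θ : ℝ => evalF (cc c) (fun k => (M θ)ᵀ *ᵥ x k)) =
        fun _ => evalF (cc c) x := funext h1
    rw [h4]
    exact hasDerivAt_const _ _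
  have h4 := h2.unique h3
  rw [← h4]
  unfold evalF
  simp only [Finset.mul_sum]
  rw [Finset.sum_comm]
  refine Finset.sum_congr rfl fun L _ => Finset.sum_congr rfl fun k _ => ?_
  congr 1
  rw [← Finset.mul_prod_erase _ _ (Finset.mem_univ k), Function.update_self, smul_eq_mul,
    mul_comm]
  congr 1
  refine Finset.prod_congr rfl fun l hl => ?_
  rw [Function.update_of_ne (Finset.ne_of_mem_erase hl), h0, Matrix.transpose_one, one_mulVec]

/-- The components. -/
theorem act_comp {c : (κ → B) → ℚ} {y : Matrix B B ℂ} (h : act yᵀ (cc c) = 0)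
    (lam : ℂ →ₗ[ℚ] ℚ) (J : κ → B) :
    ∑ k, ∑ b, lam (y (J k) b) * c (Function.update J k b) = 0 := by
  have h1 := congrArg lam (congrFun h J)
  rw [Pi.zero_apply, map_zero] at h1
  rw [← h1]
  unfold act
  rw [map_sum]
  refine Finset.sum_congr rfl fun k _ => ?_
  rw [map_sum]
  refine Finset.sum_congr rfl fun b _ => ?_
  have h2 : yᵀ b (J k) * cc c (Function.update J k b) =
      c (Function.update J k b) • y (J k) b := by
    rw [Rat.smul_def, mul_comm]
    rfl
  rw [h2, map_smul, smul_eq_mul, mul_comm]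

end tensors

variable {h : ℕ} {A : AbVar h}

/-- the coefficients of a form -/
def cf {κ : Type} (ψ : MultilinearMap ℚ (fun _ : κ => A.H1) ℚ) : (κ → Fin (2 * h)) → ℚ :=
  fun J => ψ fun k => (Pi.single (J k) 1 : Fin (2 * h) → ℚ)

theorem kills_of {κ : Type} [Fintype κ] [DecidableEq κ]
    {ψ : MultilinearMap ℚ (fun _ : κ => A.H1) ℚ} {X : Module.End ℚ A.H1}
    (hX : ∀ J : κ → Fin (2 * h), ∑ k, ∑ b, X (Pi.single (J k) 1) b *
      cf (A := A) ψ (Function.update J k b) = 0) : Kills X ψ := by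
  let D : MultilinearMap ℚ (fun _ : κ => A.H1) ℚ :=
    ∑ k, ψ.compLinearMap (Function.update (fun _ => LinearMap.id) k X)
  have hD : ∀ v, D v = ∑ k, ψ (Function.update v k (X (v k))) := by
    intro v
    change (∑ k, ψ.compLinearMap (Function.update (fun _ => LinearMap.id) k X)) v = _
    rw [MultilinearMap.sum_apply]
    refine Finset.sum_congr rfl fun k _ => ?_
    rw [MultilinearMap.compLinearMap_apply]
    congr 1
    funext l
    by_cases hl : l = k
    · subst hl
      rw [Function.update_self, Function.update_self]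
    · rw [Function.update_of_ne hl, Function.update_of_ne hl]
      rfl
  have hD0 : D = 0 := by
    refine Basis.ext_multilinear (fun _ => Pi.basisFun ℚ (Fin (2 * h))) fun J => ?_
    simp only [Pi.basisFun_apply]
    rw [hD, MultilinearMap.zero_apply, ← hX J]
    refine Finset.sum_congr rfl fun k _ => ?_
    have h4 : X (Pi.single (J k) 1) = ∑ b, X (Pi.single (J k) 1) b •
        (Pi.single b 1 : Fin (2 * h) → ℚ) := by
      ext i
      simp [Finset.sum_apply, Pi.single_apply]
    conv_lhs => rw [h4]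
    rw [MultilinearMap.map_update_sum]
    refine Finset.sum_congr rfl fun b _ => ?_
    rw [MultilinearMap.map_update_smul, smul_eq_mul]
    congr 1
    unfold cf
    congr 1
    funext l
    by_cases hl : l = k
    · subst hl
      rw [Function.update_self, Function.update_self]
    · rw [Function.update_of_ne hl, Function.update_of_ne hl]
  intro v
  rw [← hD, hD0, MultilinearMap.zero_apply]

/-- The complex structure fixes the Hodge tensors. -/
theorem Fx_hodge {κ : Type} [Fintype κ] [DecidableEq κ]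
    {ψ : MultilinearMap ℚ (fun _ : κ => A.H1) ℚ}
    (hψ : IsHodgeTensor (A.per : A.H1 →+ (Fin h → ℂ)) ψ) {z : ℂ} (hz : ‖z‖ = 1) :
    Fx (cf (A := A) ψ) (hm A z) := by
  obtain ⟨Ψ, h1, h2⟩ := hψ
  have hc : ∀ J, Ψ (fun k => A.lam (J k)) = cf (A := A) ψ J := by
    intro J
    unfold cf
    rw [← h1]
    congr 1
    funext k
    change _ = A.per (Pi.single (J k) 1)
    unfold AbVar.per
    rw [Fintype.linearCombination_apply_single, one_smul]
  funext J
  unfold pull cc
  have h3 := h2 z hz fun k => A.lam (J k)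
  have h4 : ∀ k, z • A.lam (J k) = ∑ b, A.lam.repr (z • A.lam (J k)) b • A.lam b := fun k =>
    (A.lam.sum_repr _).symm
  have h5 : (fun k => z • A.lam (J k)) =
      fun k => ∑ b, A.lam.repr (z • A.lam (J k)) b • A.lam b := funext h4
  rw [h5, MultilinearMap.map_sum, hc] at h3
  have h6 := congrArg (fun r : ℝ => (r : ℂ)) h3
  simp only [Complex.ofReal_sum, Complex.ofReal_ratCast] at h6
  rw [← h6]
  refine Finset.sum_congr rfl fun L _ => ?_
  rw [MultilinearMap.map_smul_univ, hc, smul_eq_mul, Complex.ofReal_mul, Complex.ofReal_prod,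
    Complex.ofReal_ratCast]
  congr 1

end Pool.Agent.H621.RK
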