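import Pool.Agent.R917.DT.Na

set_option autoImplicit false
set_option linter.unusedSectionVars false

/-!
# Replicas of arbitrary elements of the Lie algebra of an algebraic group
-/

open Matrix Finset Polynomial

noncomputable section

namespace Pool.Agent.H621.RK

open Pool.Agent.TH119.MX Pool.Agent.TH119.DR Pool.Agent.W437.HK Pool.Agent.R917.EC
  Pool.Agent.R917.DT

/-! ### Polynomials -/

/-- polynomials with given values at given points, to high order -/
theorem exists_crt (s : Finset ℂ) (N : ℕ) (f : ℂ → ℂ) :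
    ∃ Q : ℂ[X], ∀ a ∈ s, (X - C a) ^ N ∣ Q - C (f a) := by
  have hI : Pairwise (Function.onFun IsCoprime
      (fun a : s => Ideal.span {((X - C (a : ℂ)) ^ N : ℂ[X])})) := by
    intro a b hab
    change IsCoprime (Ideal.span _) (Ideal.span _)
    rw [Ideal.isCoprime_span_singleton_iff]
    exact (Polynomial.pairwise_coprime_X_sub_C (fun x y h => Subtype.ext h : Function.Injective
      (fun a : s => (a : ℂ))) hab).pow
  obtain ⟨Q, hQ⟩ := Ideal.exists_forall_sub_mem_ideal hI (fun a : s => C (f a))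
  exact ⟨Q, fun a ha => Ideal.mem_span_singleton.1 (hQ ⟨a, ha⟩)⟩

theorem nodal_pow_dvd {s : Finset ℂ} {N : ℕ} {P : ℂ[X]} (h : ∀ a ∈ s, (X - C a) ^ N ∣ P) :
    Lagrange.nodal s id ^ N ∣ P := by
  unfold Lagrange.nodal
  rw [← Finset.prod_pow]
  refine Finset.prod_dvd_of_coprime (fun a _ b _ hab => ?_) h
  exact (Polynomial.pairwise_coprime_X_sub_C Function.injective_id hab).pow

section aev

variable {R : Type*} [Ring R] [Algebra ℂ R]

theorem aeval_zero_of {M : R} {s : Finset ℂ} {N : ℕ}
    (hM : aeval M (Lagrange.nodal s id ^ N) = 0) {P : ℂ[X]}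
    (h : ∀ a ∈ s, (X - C a) ^ N ∣ P) : aeval M P = 0 := by
  obtain ⟨Q, rfl⟩ := nodal_pow_dvd h
  rw [map_mul, hM, zero_mul]

theorem aeval_eq_of {M : R} {s : Finset ℂ} {N : ℕ}
    (hM : aeval M (Lagrange.nodal s id ^ N) = 0) {P Q : ℂ[X]}
    (h : ∀ a ∈ s, (X - C a) ^ N ∣ P - Q) : aeval M P = aeval M Q := by
  rw [← sub_eq_zero, ← map_sub]
  exact aeval_zero_of hM h

end aev

theorem comp_dvd {P Q : ℂ[X]} {a b : ℂ} {N : ℕ} (h : (X - C a) ^ N ∣ P - C b) :
    (X - C a) ^ N ∣ Q.comp P - C (Q.eval b) := by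
  have h1 : Q.comp P - C (Q.eval b) = (Q - C (Q.eval b)).comp P := by
    rw [sub_comp, C_comp]
  have h2 : (X - C b : ℂ[X]) ∣ Q - C (Q.eval b) := by
    rw [dvd_iff_isRoot, IsRoot.def, eval_sub, eval_C, sub_self]
  obtain ⟨R, hR⟩ := h2
  rw [h1, hR, mul_comp, sub_comp, X_comp, C_comp]
  exact Dvd.dvd.mul_right h _

/-! ### The action on tensors -/

section slots

variable {κ S : Type} [Fintype κ] [DecidableEq κ] [Fintype S] [DecidableEq S]

/-- the action in one slot -/
def slot (Y : Matrix S S ℂ) (k : κ) : Module.End ℂ ((κ → S) → ℂ) where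
  toFun := actk Y k
  map_add' := actk_add Y k
  map_smul' a c := by
    funext I
    simp only [actk, Pi.smul_apply, smul_eq_mul, Finset.mul_sum, RingHom.id_apply]
    exact Finset.sum_congr rfl fun j _ => by ring

theorem slot_mul (Y Z : Matrix S S ℂ) (k : κ) : slot Y k * slot Z k = slot (Z * Y) k :=
  LinearMap.ext fun c => actk_same Y Z k c

theorem slot_one (k : κ) : slot (1 : Matrix S S ℂ) k = 1 := by
  refine LinearMap.ext fun c => ?_
  funext I
  change ∑ j, (1 : Matrix S S ℂ) j (I k) * c (Function.update I k j) = c I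
  rw [Finset.sum_eq_single (I k)]
  · rw [Matrix.one_apply_eq, one_mul, Function.update_eq_self]
  · intro j _ hj
    rw [Matrix.one_apply_ne hj, zero_mul]
  · intro h
    exact absurd (Finset.mem_univ _) h

theorem slot_add (Y Z : Matrix S S ℂ) (k : κ) : slot (Y + Z) k = slot Y k + slot Z k := by
  refine LinearMap.ext fun c => ?_
  funext I
  change ∑ j, (Y + Z) j (I k) * c (Function.update I k j) = ∑ j, _ + ∑ j, _
  rw [← Finset.sum_add_distrib]
  exact Finset.sum_congr rfl fun j _ => by rw [Matrix.add_apply, add_mul]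

theorem slot_smul (a : ℂ) (Y : Matrix S S ℂ) (k : κ) : slot (a • Y) k = a • slot Y k := by
  refine LinearMap.ext fun c => ?_
  funext I
  change ∑ j, (a • Y) j (I k) * c (Function.update I k j) = a * ∑ j, _
  rw [Finset.mul_sum]
  exact Finset.sum_congr rfl fun j _ => by rw [Matrix.smul_apply, smul_eq_mul, mul_assoc]

theorem slot_zero (k : κ) : slot (0 : Matrix S S ℂ) k = 0 := by
  have h := slot_smul 0 (0 : Matrix S S ℂ) k
  rwa [zero_smul, zero_smul] at h

theorem slot_aeval (Y : Matrix S S ℂ) (k : κ) (P : ℂ[X]) :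
    aeval (slot Y k) P = slot (aeval Y P) k := by
  induction P using Polynomial.induction_on with
  | C a =>
    rw [aeval_C, aeval_C, Algebra.algebraMap_eq_smul_one, Algebra.algebraMap_eq_smul_one,
      slot_smul, slot_one]
  | add p q hp hq => rw [map_add, map_add, hp, hq, slot_add]
  | monomial n a ih =>
    have e : (C a * X ^ (n + 1) : ℂ[X]) = X * (C a * X ^ n) := by ring
    rw [e, map_mul (aeval (slot Y k)) X, map_mul (aeval Y) X, ih, aeval_X, aeval_X, slot_mul]
    congr 1
    have h1 : aeval Y (C a * X ^ n : ℂ[X]) * aeval Y (X : ℂ[X]) =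
        aeval Y (X : ℂ[X]) * aeval Y (C a * X ^ n : ℂ[X]) := by
      rw [← map_mul, ← map_mul, mul_comm]
    rw [aeval_X] at h1
    exact h1

theorem slot_comm {Y Z : Matrix S S ℂ} (h : Y * Z = Z * Y) (k l : κ) :
    Commute (slot Y k) (slot Z l) := by
  by_cases hkl : k = l
  · subst hkl
    change slot Y k * slot Z k = slot Z k * slot Y k
    rw [slot_mul, slot_mul, h]
  · exact LinearMap.ext fun c => actk_comm Y Z hkl c

theorem actR_eq (Y : Matrix S S ℂ) :
    (actR Y : Module.End ℂ ((κ → S) → ℂ)) = ∑ k, slot Y k := by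
  refine LinearMap.ext fun c => ?_
  rw [LinearMap.sum_apply]
  exact act_eq_sum Y c

theorem actR_nilpotent {Y : Matrix S S ℂ} (hY : IsNilpotent Y) :
    IsNilpotent (actR Y : Module.End ℂ ((κ → S) → ℂ)) := by
  rw [actR_eq]
  refine Commute.isNilpotent_sum (fun k _ => ?_) fun k l _ _ => slot_comm rfl k l
  obtain ⟨n, hn⟩ := hY
  refine ⟨n, ?_⟩
  have h1 := slot_aeval Y k (X ^ n : ℂ[X])
  rw [map_pow, map_pow, aeval_X, aeval_X, hn, slot_zero] at h1
  exact h1

theorem nodal_squarefree (s : Finset ℂ) : Squarefree (Lagrange.nodal s (id : ℂ → ℂ)) := by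
  have h : (Lagrange.nodal s (id : ℂ → ℂ)).Separable := by
    unfold Lagrange.nodal
    exact separable_prod_X_sub_C_iff'.2 fun x _ y _ h => h
  exact h.squarefree

theorem sum_semisimple {V ι : Type} [AddCommGroup V] [Module ℂ V] [FiniteDimensional ℂ V]
    [DecidableEq ι] (s : Finset ι) (f : ι → Module.End ℂ V) (h1 : ∀ i ∈ s, (f i).IsSemisimple)
    (h2 : ∀ i ∈ s, ∀ j ∈ s, Commute (f i) (f j)) : (∑ i ∈ s, f i).IsSemisimple := by
  induction s using Finset.induction_on with
  | empty =>
    rw [Finset.sum_empty]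
    exact Module.End.isSemisimple_zero
  | insert a s ha ih =>
    rw [Finset.sum_insert ha]
    refine Module.End.IsSemisimple.add_of_commute ?_ (h1 a (Finset.mem_insert_self _ _))
      (ih (fun i hi => h1 i (Finset.mem_insert_of_mem hi)) fun i hi j hj =>
        h2 i (Finset.mem_insert_of_mem hi) j (Finset.mem_insert_of_mem hj))
    exact Commute.sum_right _ _ _ fun i hi => h2 a (Finset.mem_insert_self _ _) i
      (Finset.mem_insert_of_mem hi)

theorem actR_semisimple {Y : Matrix S S ℂ} {s : Finset ℂ}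
    (hY : aeval Y (Lagrange.nodal s id) = 0) :
    Module.End.IsSemisimple (actR Y : Module.End ℂ ((κ → S) → ℂ)) := by
  rw [actR_eq]
  refine sum_semisimple _ _ (fun k _ => ?_) fun k _ l _ => slot_comm rfl k l
  refine Module.End.isSemisimple_of_squarefree_aeval_eq_zero (nodal_squarefree s) ?_
  rw [slot_aeval, hY, slot_zero]

theorem actR_comm {Y Z : Matrix S S ℂ} (h : Y * Z = Z * Y) :
    Commute (actR Y : Module.End ℂ ((κ → S) → ℂ)) (actR Z) := by
  rw [actR_eq, actR_eq]
  exact Commute.sum_left _ _ _ fun k _ => Commute.sum_right _ _ _ fun l _ => slot_comm h k l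

/-- A subspace stable under the action of a matrix is stable under the action of its semisimple
part. -/
theorem stable_ss {Y N : Matrix S S ℂ} (hc : N * Y = Y * N) (hN : IsNilpotent N) {s : Finset ℂ}
    (hY : aeval Y (Lagrange.nodal s id) = 0) (U : Submodule ℂ ((κ → S) → ℂ))
    (hU : ∀ w ∈ U, act (Y + N) w ∈ U) : ∀ w ∈ U, act Y w ∈ U := by
  obtain ⟨n, hn, t, ht, hn1, ht1, h⟩ :=
    Module.End.exists_isNilpotent_isSemisimple (f := (actR (Y + N) : Module.End ℂ ((κ → S) → ℂ)))
  have h1 : (actR (Y + N) : Module.End ℂ ((κ → S) → ℂ)) = actR N + actR Y := by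
    refine LinearMap.ext fun c => ?_
    change act (Y + N) c = act N c + act Y c
    rw [act_add_left, add_comm]
  have hc1 : Commute n t := Algebra.commute_of_mem_adjoin_singleton_of_commute ht
    (Algebra.commute_of_mem_adjoin_self hn).symm
  obtain ⟨-, h2⟩ := Module.End.isNilpotent_isSemisimple_unique hn1 ht1 (actR_nilpotent hN)
    (actR_semisimple hY) hc1 (actR_comm hc) (h.symm.trans h1)
  rw [Algebra.adjoin_singleton_eq_range_aeval] at ht
  obtain ⟨P, hP⟩ := ht
  have h3 : ∀ P : ℂ[X], ∀ w ∈ U, (aeval (actR (Y + N) : Module.End ℂ ((κ → S) → ℂ)) P) w ∈ U := by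
    intro P
    induction P using Polynomial.induction_on with
    | C a =>
      intro w hw
      rw [aeval_C]
      exact U.smul_mem a hw
    | add p q hp hq =>
      intro w hw
      rw [map_add]
      exact U.add_mem (hp w hw) (hq w hw)
    | monomial n a ih =>
      intro w hw
      rw [pow_succ, ← mul_assoc, map_mul, aeval_X]
      exact ih _ (hU w hw)
  intro w hw
  have h4 := h3 P w hw
  have h5 : aeval (actR (Y + N) : Module.End ℂ ((κ → S) → ℂ)) P = actR Y := hP.trans h2
  rw [h5] at h4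
  exact h4

end slots

/-! ### The stabilizer -/

variable {B : Type} [Fintype B] [DecidableEq B] {H : Set (Matrix B B ℂ)}

theorem LL_pow (Y : Matrix B B ℂ) (n : ℕ) : LL Y ^ (n + 1) = LL (Y ^ (n + 1)) := by
  induction n with
  | zero => rw [zero_add, pow_one, pow_one]
  | succ n ih => rw [pow_succ, ih, LL_mul_LL, pow_succ' Y (n + 1)]

theorem LL_nilpotent {N : Matrix B B ℂ} (hN : IsNilpotent N) : IsNilpotent (LL N) := by
  obtain ⟨n, hn⟩ := hN
  refine ⟨n + 1, ?_⟩
  rw [LL_pow, pow_succ, hn, zero_mul, LL_zero]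

theorem LL_aeval (Y : Matrix B B ℂ) (P : ℂ[X]) :
    aeval (LL Y) P = LL (aeval Y P) + P.eval 0 • (1 - LL 1) := by
  induction P using Polynomial.induction_on with
  | C a =>
    rw [aeval_C, aeval_C, eval_C, Algebra.algebraMap_eq_smul_one, Algebra.algebraMap_eq_smul_one,
      LL_smul, smul_sub, add_sub_cancel]
  | add p q hp hq =>
    rw [map_add, map_add, hp, hq, LL_add, eval_add, add_smul]
    abel
  | monomial n a ih =>
    rw [pow_succ, ← mul_assoc, map_mul (aeval (LL Y)) _ X, map_mul (aeval Y) _ X, ih, aeval_X,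
      aeval_X, add_mul, LL_mul_LL, eval_mul_X, mul_zero, zero_smul, add_zero, smul_mul_assoc,
      sub_mul, LL_mul_LL, one_mul, mul_one, sub_self, smul_zero, add_zero]
    congr 1
    have h1 : aeval Y (C a * X ^ n : ℂ[X]) * aeval Y (X : ℂ[X]) =
        aeval Y (X : ℂ[X]) * aeval Y (C a * X ^ n : ℂ[X]) := by
      rw [← map_mul, ← map_mul, mul_comm]
    rw [aeval_X] at h1
    exact h1.symm

theorem LL_nodal {Y : Matrix B B ℂ} {s : Finset ℂ} (hY : aeval Y (Lagrange.nodal s id) = 0) :
    aeval (LL Y) (Lagrange.nodal (insert 0 s) id) = 0 := by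
  have h1 : aeval Y (Lagrange.nodal (insert 0 s) id) = 0 :=
    aeval_mono hY (Finset.subset_insert _ _)
  rw [LL_aeval, h1, LL_zero, zero_add]
  have h2 : (Lagrange.nodal (insert 0 s) (id : ℂ → ℂ)).eval 0 = 0 :=
    Lagrange.eval_nodal_at_node (v := id) (Finset.mem_insert_self _ _)
  rw [h2, zero_smul]

/-- The semisimple part. -/
theorem stab_ss {Y N : Matrix B B ℂ} (hc : N * Y = Y * N) (hN : IsNilpotent N) {s : Finset ℂ}
    (hY : aeval Y (Lagrange.nodal s id) = 0) {k : ℕ} (hS : Stab H k (Y + N)) : Stab H k Y := by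
  refine stable_ss (Y := LL Y) (N := LL N) ?_ (LL_nilpotent hN) (LL_nodal hY) (Wt H k) ?_
  · rw [LL_mul_LL, LL_mul_LL, hc]
  · intro w hw
    rw [← LL_add]
    exact hS w hw

/-- **Replicas.** -/
theorem stab_rep {M : Matrix B B ℂ} {s : Finset ℂ} {N : ℕ}
    (hM : aeval M (Lagrange.nodal s id ^ N) = 0) (σ : ℂ →+ ℂ) {Q : ℂ[X]}
    (hQ : ∀ a ∈ s, (X - C a) ^ N ∣ Q - C (σ a)) {k : ℕ} (hS : Stab H k M) :
    Stab H k (aeval M Q) := by
  classical
  rcases s.eq_empty_or_nonempty with hs | hs
  · rw [hs, Lagrange.nodal_empty, one_pow, map_one] at hM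
    have h1 : aeval M Q = 0 := by rw [← one_mul (aeval M Q), hM, zero_mul]
    rw [h1]
    exact Stab.zero
  rcases N.eq_zero_or_pos with hN | hN
  · rw [hN, pow_zero, map_one] at hM
    have h1 : aeval M Q = 0 := by rw [← one_mul (aeval M Q), hM, zero_mul]
    rw [h1]
    exact Stab.zero
  obtain ⟨P, hP⟩ := exists_crt s N id
  simp only [id] at hP
  have h1 : aeval (aeval M P) (Lagrange.nodal s id) = 0 := by
    rw [← aeval_comp]
    refine aeval_zero_of hM fun a ha => ?_
    have h2 := comp_dvd (Q := Lagrange.nodal s id) (hP a ha)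
    have h3 : (Lagrange.nodal s (id : ℂ → ℂ)).eval a = 0 :=
      Lagrange.eval_nodal_at_node (v := id) ha
    rwa [h3, C_0, sub_zero] at h2
  have h2 : IsNilpotent (M - aeval M P) := by
    refine ⟨N, ?_⟩
    have e1 : (M - aeval M P) ^ N = aeval M ((X - P) ^ N) := by
      rw [map_pow, map_sub, aeval_X]
    rw [e1]
    refine aeval_zero_of hM fun a ha => pow_dvd_pow_of_dvd ?_ N
    have e2 : (X - C a : ℂ[X]) ∣ P - C a := (dvd_pow_self _ hN.ne').trans (hP a ha)
    have e3 : (X - P : ℂ[X]) = (X - C a) - (P - C a) := by ring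
    rw [e3]
    exact dvd_sub (dvd_refl _) e2
  have hcm : (M - aeval M P) * aeval M P = aeval M P * (M - aeval M P) := by
    have e1 : M - aeval M P = aeval M (X - P) := by rw [map_sub, aeval_X]
    rw [e1, ← map_mul, ← map_mul, mul_comm]
  have h3 : Stab H k (aeval M P) := by
    refine stab_ss hcm h2 h1 ?_
    rwa [add_sub_cancel]
  have h4 := stab_aeval (Q := Lagrange.interpolate s id (fun x => σ x)) hs h1 σ (fun a ha =>
    Lagrange.eval_interpolate_at_node (fun x => σ x) (Function.injective_id.injOn) ha) h3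
  rw [← aeval_comp] at h4
  have h5 : aeval M Q = aeval M ((Lagrange.interpolate s id (fun x => σ x)).comp P) := by
    refine aeval_eq_of hM fun a ha => ?_
    have e1 := comp_dvd (Q := Lagrange.interpolate s id (fun x => σ x)) (hP a ha)
    have e2 : (Lagrange.interpolate s id (fun x => σ x)).eval a = σ a :=
      Lagrange.eval_interpolate_at_node (fun x => σ x) (Function.injective_id.injOn) ha
    rw [e2] at e1
    have e3 := dvd_sub (hQ a ha) e1
    rwa [sub_sub_sub_cancel_right] at e3
  rw [h5]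
  exact h4

end Pool.Agent.H621.RK
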