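import Pool.Agent.H621.RK.Rel
import Pool.Agent.R917.DT.Lift

set_option autoImplicit false
set_option linter.unusedSectionVars false

/-!
# Lifts of the elements of the Lie algebra of the Hodge group
-/

open Module TensorProduct Matrix Polynomial

noncomputable section

namespace Pool.Agent.H621.RK

open Pool.Agent.Y102 Pool.Agent.W516.DR Pool.Agent.H204R3.GP Pool.Agent.W516.KC
  Pool.Agent.H204R3.SP Pool.Agent.TH119.MX Pool.Agent.R917 Pool.Agent.R917.DT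
  Pool.Agent.R917.EC Pool.Agent.H621.BC Pool.Agent.R917.OM

variable {r K h : ℕ} {A : AbVar h} {lev : Fin r → Fin K}
  {H : Set (Matrix (Fin r ⊕ Fin (2 * h)) (Fin r ⊕ Fin (2 * h)) ℂ)}

/-- A group which contains the periods: its Lie algebra contains the logarithmic derivatives. -/
structure PtR (A : AbVar h) (lev : Fin r → Fin K)
    (H : Set (Matrix (Fin r ⊕ Fin (2 * h)) (Fin r ⊕ Fin (2 * h)) ℂ)) : Prop where
  grp : AlgGrp QQ H
  der : ∀ D : Derivation QBar ℂ ℂ, ∃ (x : Matrix (Fin r) (Fin r) ℂ)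
    (P' : Matrix (Fin (2 * h)) (Fin (2 * h)) ℂ), P' * PM A = 1 ∧
      ((x, (PM A).map D * P') : R2 r (Fin (2 * h))) ∈ PP lev H

/-- the lift exists -/
def Lif (lev : Fin r → Fin K)
    (H : Set (Matrix (Fin r ⊕ Fin (2 * h)) (Fin r ⊕ Fin (2 * h)) ℂ))
    (y : Matrix (Fin (2 * h)) (Fin (2 * h)) ℂ) : Prop :=
  ∃ x : Matrix (Fin r) (Fin r) ℂ, ((x, y) : R2 r (Fin (2 * h))) ∈ PP lev H

theorem Lif.add {y z : Matrix (Fin (2 * h)) (Fin (2 * h)) ℂ} (hy : Lif lev H y)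
    (hz : Lif lev H z) : Lif lev H (y + z) := by
  obtain ⟨x, hx⟩ := hy
  obtain ⟨x', hx'⟩ := hz
  exact ⟨x + x', (PP lev H).add_mem hx hx'⟩

theorem Lif.smul {y : Matrix (Fin (2 * h)) (Fin (2 * h)) ℂ} (a : ℂ) (hy : Lif lev H y) :
    Lif lev H (a • y) := by
  obtain ⟨x, hx⟩ := hy
  exact ⟨a • x, (PP lev H).smul_mem a hx⟩

theorem Lif.zero : Lif lev H (0 : Matrix (Fin (2 * h)) (Fin (2 * h)) ℂ) :=
  ⟨0, (PP lev H).zero_mem⟩

theorem Lif.br {y z : Matrix (Fin (2 * h)) (Fin (2 * h)) ℂ} (hy : Lif lev H y)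
    (hz : Lif lev H z) : Lif lev H (y * z - z * y) := by
  obtain ⟨x, hx⟩ := hy
  obtain ⟨x', hx'⟩ := hz
  exact ⟨x * x' - x' * x, PP_br hx hx'⟩

theorem Lif.comp (hH : AlgGrp QQ H) {y : Matrix (Fin (2 * h)) (Fin (2 * h)) ℂ}
    (hy : Lif lev H y) (lam : ℂ →ₗ[ℚ] ℚ) : Lif lev H (y.map (lamF lam)) := by
  obtain ⟨x, hx⟩ := hy
  exact ⟨_, PP_comp hH hx lam⟩

theorem Lif.rep {y : Matrix (Fin (2 * h)) (Fin (2 * h)) ℂ} {sy : Finset ℂ}
    (hy : aeval y (Lagrange.nodal sy id) = 0) (hz : Lif lev H y) (σ : ℂ →+ ℂ) {Q : ℂ[X]}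
    (hQ : ∀ a ∈ sy, Q.eval a = σ a) : Lif lev H (aeval y Q) := by
  obtain ⟨x, hx⟩ := hz
  exact PP_rep' hy hx σ hQ

theorem rm_br (X Y : Module.End ℚ A.H1) : rm (X * Y - Y * X) = rm Y * rm X - rm X * rm Y := by
  have h1 : rm (X * Y - Y * X) = rm (X * Y) - rm (Y * X) := by
    rw [rm_eq, rm_eq, rm_eq, toC_sub, Matrix.transpose_sub]
  rw [h1, rm_mul, rm_mul]

variable (A lev H) in
/-- the elements with a lift, up to a scalar -/
def ha : Submodule ℚ (Module.End ℚ A.H1) where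
  carrier := {Y | Y ∈ A.NA ∧ ∃ a : ℚ, Lif lev H (rm Y + (a : ℂ) • 1)}
  zero_mem' := ⟨A.NA.zero_mem, 0, by
    rw [rm_zero, Rat.cast_zero, zero_smul, add_zero]
    exact Lif.zero⟩
  add_mem' := by
    rintro X Y ⟨hX, a, ha⟩ ⟨hY, b, hb⟩
    refine ⟨A.NA.add_mem hX hY, a + b, ?_⟩
    have h1 := ha.add hb
    convert h1 using 1
    rw [rm_add, Rat.cast_add, add_smul]
    abel
  smul_mem' := by
    rintro t X ⟨hX, a, ha⟩
    refine ⟨A.NA.smul_mem t hX, t * a, ?_⟩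
    have h1 := ha.smul (t : ℂ)
    convert h1 using 1
    rw [rm_smul, Rat.cast_mul, smul_add, smul_smul]

variable (A lev H) in
/-- the elements with a lift -/
def hb : Submodule ℚ (Module.End ℚ A.H1) where
  carrier := {Y | Y ∈ A.NA ∧ Lif lev H (rm Y)}
  zero_mem' := ⟨A.NA.zero_mem, by
    rw [rm_zero]
    exact Lif.zero⟩
  add_mem' := by
    rintro X Y ⟨hX, ha⟩ ⟨hY, hb⟩
    refine ⟨A.NA.add_mem hX hY, ?_⟩
    rw [rm_add]
    exact ha.add hb
  smul_mem' := by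
    rintro t X ⟨hX, ha⟩
    refine ⟨A.NA.smul_mem t hX, ?_⟩
    rw [rm_smul]
    exact ha.smul _

variable (A lev H) in
/-- the elements `Y` such that `(0, Y)` is in the Lie algebra -/
def nn : Submodule ℚ (Module.End ℚ A.H1) where
  carrier := {Y | Y ∈ A.NA ∧ ((0, rm Y) : R2 r (Fin (2 * h))) ∈ PP lev H}
  zero_mem' := ⟨A.NA.zero_mem, by
    rw [rm_zero]
    exact (PP lev H).zero_mem⟩
  add_mem' := by
    rintro X Y ⟨hX, ha⟩ ⟨hY, hb⟩
    refine ⟨A.NA.add_mem hX hY, ?_⟩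
    rw [rm_add]
    have h1 := (PP lev H).add_mem ha hb
    rwa [Prod.mk_add_mk, add_zero] at h1
  smul_mem' := by
    rintro t X ⟨hX, ha⟩
    refine ⟨A.NA.smul_mem t hX, ?_⟩
    rw [rm_smul]
    have h1 := (PP lev H).smul_mem (t : ℂ) ha
    rwa [Prod.smul_mk, smul_zero] at h1

theorem scal_br {n : ℕ} (x y : Matrix (Fin n) (Fin n) ℂ) (a b : ℂ) :
    (x + a • 1) * (y + b • 1) - (y + b • 1) * (x + a • 1) = x * y - y * x := by
  rw [add_mul, mul_add, mul_add, add_mul, mul_add, mul_add]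
  simp only [smul_mul_assoc, mul_smul_comm, mul_one, one_mul]
  rw [smul_comm a b]
  abel

theorem ha_br {X Y : Module.End ℚ A.H1} (hX : X ∈ ha A lev H) (hY : Y ∈ ha A lev H) :
    X * Y - Y * X ∈ hb A lev H := by
  obtain ⟨h1, a, h2⟩ := hX
  obtain ⟨h3, b, h4⟩ := hY
  refine ⟨A.NA_bracket h1 h3, ?_⟩
  have h5 := h4.br h2
  rw [scal_br] at h5
  rw [rm_br]
  exact h5

theorem hb_le : hb A lev H ≤ ha A lev H := fun X hX => ⟨hX.1, 0, by
  rw [Rat.cast_zero, zero_smul, add_zero]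
  exact hX.2⟩

theorem cmpE_lift (hpt : PtR A lev H) (D : Derivation QBar ℂ ℂ) (lam : ℂ →ₗ[ℚ] ℚ) :
    Lif lev H (rm (Pool.Agent.W516.DR.cmpE lam (XX A.basis D))) := by
  obtain ⟨x, P', h1, h2⟩ := hpt.der D
  have h3 := PP_comp hpt.grp h2 lam
  refine ⟨x.map (lamF lam), ?_⟩
  rw [rm_eq, toC_cmpE A D h1 lam]
  exact h3

theorem X0_lift (hpt : PtR A lev H) (D : Derivation QBar ℂ ℂ) (lam : ℂ →ₗ[ℚ] ℚ) :
    X0 A.basis tau D lam ∈ A.NA ∧
      Lif lev H (rm (X0 A.basis tau D lam) + ((lam (D tau / (2 * tau)) : ℚ) : ℂ) • 1) := by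
  refine ⟨A.LA_le_NA ?_, ?_⟩
  · rw [AbVar.LA_eq]
    exact X0_mem A.basis AbVar.tau_ne D lam
  · have h1 := cmpE_lift hpt D lam
    rw [← X0_eq D lam, rm_add, rm_smul, rm_one] at h1
    exact h1

theorem ha_full (hpt : PtR A lev H) : A.Full (ha A lev H) :=
  full_of_X0 A (fun _ hX => hX.1) (fun _ hX _ hY => hb_le (ha_br hX hY)) fun D lam =>
    ⟨(X0_lift hpt D lam).1, _, (X0_lift hpt D lam).2⟩

theorem der_ha {X : Module.End ℚ A.H1} (hX : X ∈ der (ha A lev H)) : X ∈ hb A lev H := by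
  have h1 : der (ha A lev H) ≤ hb A lev H := by
    unfold der
    rw [Submodule.span_le]
    rintro _ ⟨P, hP, Q, hQ, rfl⟩
    exact ha_br hP hQ
  exact h1 hX

/-- **The weight.** -/
theorem wt_lift (hpt : PtR A lev H) :
    Lif lev H (1 : Matrix (Fin (2 * h)) (Fin (2 * h)) ℂ) := by
  classical
  have hf := ha_full hpt
  obtain ⟨D, lam, hne⟩ := exists_der
  obtain ⟨a, haa⟩ : ∃ a : ℚ, a = lam (D tau / (2 * tau)) := ⟨_, rfl⟩
  rw [← haa] at hne
  obtain ⟨h1, h2⟩ := X0_lift hpt D lam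
  rw [← haa] at h2
  obtain ⟨Z, hZ, e, he, h3, h4⟩ := hf.dec (X := X0 A.basis tau D lam) ⟨h1, a, h2⟩
  have h5 := (der_ha he).2
  have h6 : Lif lev H (rm Z + (a : ℂ) • 1) := by
    have h7 := h2.add (h5.smul (-1))
    convert h7 using 1
    rw [h3, rm_add]
    module
  have hc : ∀ Y ∈ A.NA, Z * Y = Y * Z := fun Y hY => (hf.comm Z (fun Y hY => (h4 Y hY).symm)
    Y hY).symm
  obtain ⟨t, ht, hN⟩ := imag_roots (hf.le hZ) hc
  let sy : Finset ℂ := t.image fun b => b + (a : ℂ)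
  have hy : aeval (rm Z + (a : ℂ) • (1 : Matrix (Fin (2 * h)) (Fin (2 * h)) ℂ))
      (Lagrange.nodal sy id) = 0 := by
    rw [aeval_shift]
    have h8 : aeval (rm Z) ((Lagrange.nodal sy id).comp (X + C (a : ℂ))) =
        aeval (rm Z) (0 : ℂ[X]) := by
      refine aeval_congr hN fun b hb => ?_
      rw [eval_comp, eval_add, eval_X, eval_C, eval_zero]
      exact Lagrange.eval_nodal_at_node (v := id) (i := b + (a : ℂ))
        (Finset.mem_image.2 ⟨b, hb, rfl⟩)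
    rw [h8, map_zero]
  have h8 := h6.rep hy reA (Q := C (a : ℂ)) fun b hb => by
    obtain ⟨c, hc, rfl⟩ := Finset.mem_image.1 hb
    rw [eval_C, reA_apply, Complex.add_re, ht c hc, zero_add, Complex.ratCast_re,
      Complex.ofReal_ratCast]
  rw [aeval_C, Algebra.algebraMap_eq_smul_one] at h8
  have h9 := h8.smul ((a : ℂ)⁻¹)
  rwa [smul_smul, inv_mul_cancel₀ (by exact_mod_cast hne), one_smul] at h9

theorem hb_eq (hpt : PtR A lev H) : hb A lev H = ha A lev H := by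
  refine le_antisymm hb_le fun X hX => ⟨hX.1, ?_⟩
  obtain ⟨-, a, h1⟩ := hX
  have h2 := h1.add ((wt_lift hpt).smul (-(a : ℂ)))
  rwa [neg_smul, add_neg_cancel_right] at h2

theorem hb_full (hpt : PtR A lev H) : A.Full (hb A lev H) := by
  rw [hb_eq hpt]
  exact ha_full hpt

theorem hb_RC (hpt : PtR A lev H) : RC (hb A lev H) := by
  intro Y hY s hs σ Q hQ lam X' hX'
  refine ⟨NA_RC Y hY.1 s hs σ Q hQ lam X' hX', ?_⟩
  rw [hX']
  exact (hY.2.rep hs σ hQ).comp hpt.grp lam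

/-- **The lifts.** -/
theorem lift_NA (hdet : Det A) (hpt : PtR A lev H) {Y : Module.End ℚ A.H1} (hY : Y ∈ A.NA) :
    Lif lev H (rm Y) :=
  (hdet _ (hb_full hpt) (hb_RC hpt) hY).2

/-! ### The ideal -/

theorem nn_ideal (hpt : PtR A lev H) {X Y : Module.End ℚ A.H1} (hX : X ∈ hb A lev H)
    (hY : Y ∈ nn A lev H) : X * Y - Y * X ∈ nn A lev H := by
  obtain ⟨h1, x, h2⟩ := hX
  refine ⟨A.NA_bracket h1 hY.1, ?_⟩
  have h3 := PP_br hY.2 h2
  convert h3 using 1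
  refine Prod.ext ?_ ?_
  · change 0 = 0 * x - x * 0
    rw [zero_mul, mul_zero, sub_zero]
  · exact rm_br X Y

theorem nn_RC (hpt : PtR A lev H) : RC (nn A lev H) := by
  intro Y hY s hs σ Q hQ lam X' hX'
  refine ⟨NA_RC Y hY.1 s hs σ Q hQ lam X' hX', ?_⟩
  have h0 : aeval (0 : Matrix (Fin r) (Fin r) ℂ)
      (Lagrange.nodal ({0} : Finset ℂ) (id : ℂ → ℂ) ^ 1) = 0 := by
    have e1 : Lagrange.nodal ({0} : Finset ℂ) (id : ℂ → ℂ) = X := by
      unfold Lagrange.nodal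
      rw [Finset.prod_singleton, id, C_0, sub_zero]
    rw [pow_one, e1, aeval_X]
  obtain ⟨x', h1, h2⟩ := PP_rep h0 hs hY.2 σ hQ
  rw [h2 (fun a ha => by
    rw [Finset.mem_singleton.1 ha]
    exact map_zero σ)] at h1
  have h3 := PP_comp hpt.grp h1 lam
  rw [hX']
  convert h3 using 1
  refine Prod.ext ?_ rfl
  ext i j
  exact (map_zero (lamF lam)).symm

end Pool.Agent.H621.RK
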