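import Pool.Agent.H621.RK.Eig
import Pool.Agent.H621.BC.Grp

set_option autoImplicit false
set_option linter.unusedSectionVars false

/-!
# The Lie algebra of a group of block matrices
-/

open Matrix Finset Polynomial

noncomputable section

namespace Pool.Agent.H621.RK

open Pool.Agent.TH119.MX Pool.Agent.R917 Pool.Agent.R917.DT Pool.Agent.H621.BC Pool.Agent.Y102

variable {r K : ℕ} {I : Type} [Fintype I] [DecidableEq I]

/-- pairs of matrices -/
abbrev R2 (r : ℕ) (I : Type) [Fintype I] [DecidableEq I] : Type :=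
  Matrix (Fin r) (Fin r) ℂ × Matrix I I ℂ

/-- the block diagonal matrix -/
def bd : R2 r I →ₐ[ℂ] Matrix (Fin r ⊕ I) (Fin r ⊕ I) ℂ where
  toFun z := fromBlocks z.1 0 0 z.2
  map_one' := fromBlocks_one
  map_mul' z w := by
    rw [fromBlocks_multiply]
    simp only [Matrix.mul_zero, Matrix.zero_mul, add_zero, zero_add, Prod.fst_mul, Prod.snd_mul]
  map_zero' := fromBlocks_zero
  map_add' z w := by
    rw [fromBlocks_add, add_zero, add_zero, Prod.fst_add, Prod.snd_add]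
  commutes' a := by
    rw [Algebra.algebraMap_eq_smul_one, Algebra.algebraMap_eq_smul_one, Prod.smul_fst,
      Prod.smul_snd, Prod.fst_one, Prod.snd_one, ← fromBlocks_one, fromBlocks_smul, smul_zero,
      smul_zero]

theorem bd_apply (z : R2 r I) : bd z = fromBlocks z.1 0 0 z.2 := rfl

theorem BT_aeval {lev : Fin r → Fin K} {M : Matrix (Fin r) (Fin r) ℂ} (hM : BT lev M)
    (Q : ℂ[X]) : BT lev (aeval M Q) := by
  induction Q using Polynomial.induction_on with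
  | C a =>
    intro i j hij
    rw [aeval_C, Algebra.algebraMap_eq_smul_one, Matrix.smul_apply,
      Matrix.one_apply_ne (fun h => by rw [h] at hij; exact lt_irrefl _ hij), smul_zero]
  | add p q hp hq =>
    intro i j hij
    rw [map_add, Matrix.add_apply, hp i j hij, hq i j hij, add_zero]
  | monomial n a ih =>
    intro i j hij
    rw [pow_succ, ← mul_assoc, map_mul, aeval_X]
    exact (ih.mul hM) i j hij

/-- The block diagonal elements of the Lie algebra. -/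
def PP (lev : Fin r → Fin K) (H : Set (Matrix (Fin r ⊕ I) (Fin r ⊕ I) ℂ)) :
    Submodule ℂ (R2 r I) where
  carrier := {z | BT lev z.1 ∧ ∀ d, Stab H d (bd z)}
  zero_mem' := ⟨fun i j _ => rfl, fun d => by
    rw [map_zero]
    exact Stab.zero⟩
  add_mem' := by
    rintro z w ⟨h1, h2⟩ ⟨h3, h4⟩
    refine ⟨fun i j hij => ?_, fun d => ?_⟩
    · rw [Prod.fst_add, Matrix.add_apply, h1 i j hij, h3 i j hij, add_zero]
    · rw [map_add]
      exact (h2 d).add (h4 d)
  smul_mem' := by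
    rintro a z ⟨h1, h2⟩
    refine ⟨fun i j hij => ?_, fun d => ?_⟩
    · rw [Prod.smul_fst, Matrix.smul_apply, h1 i j hij, smul_zero]
    · rw [map_smul]
      exact (h2 d).smul a

variable {lev : Fin r → Fin K} {H : Set (Matrix (Fin r ⊕ I) (Fin r ⊕ I) ℂ)}

theorem mem_PP {z : R2 r I} : z ∈ PP lev H ↔ BT lev z.1 ∧ ∀ d, Stab H d (bd z) := Iff.rfl

theorem PP_br {z w : R2 r I} (hz : z ∈ PP lev H) (hw : w ∈ PP lev H) :
    z * w - w * z ∈ PP lev H := by
  refine ⟨fun i j hij => ?_, fun d => ?_⟩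
  · rw [Prod.fst_sub, Prod.fst_mul, Prod.fst_mul, Matrix.sub_apply,
      (BT.mul hz.1 hw.1) i j hij, (BT.mul hw.1 hz.1) i j hij, sub_zero]
  · rw [map_sub, map_mul, map_mul]
    exact (hz.2 d).comm (hw.2 d)

theorem PP_comp (hH : AlgGrp QQ H) {z : R2 r I} (hz : z ∈ PP lev H) (lam : ℂ →ₗ[ℚ] ℚ) :
    ((z.1.map (lamF lam), z.2.map (lamF lam)) : R2 r I) ∈ PP lev H := by
  refine ⟨fun i j hij => ?_, fun d => ?_⟩
  · change (lamF lam) (z.1 i j) = 0
    rw [hz.1 i j hij, map_zero]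
  · have h1 := hH.stab_map (lamF lam) (hz.2 d)
    convert h1 using 1
    rw [bd_apply, bd_apply, fromBlocks_map]
    congr 1 <;>
    · ext i j
      exact (map_zero (lamF lam)).symm

theorem PP_aeval {z : R2 r I} {s : Finset ℂ} {N : ℕ}
    (hz0 : aeval z (Lagrange.nodal s id ^ N) = 0) (σ : ℂ →+ ℂ) {Q : ℂ[X]}
    (hQ : ∀ a ∈ s, (X - C a) ^ N ∣ Q - C (σ a)) (hz : z ∈ PP lev H) : aeval z Q ∈ PP lev H := by
  have h0 : (aeval z Q).1 = aeval z.1 Q := by
    have h1 := Polynomial.aeval_algHom_apply (AlgHom.fst ℂ (Matrix (Fin r) (Fin r) ℂ)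
      (Matrix I I ℂ)) z Q
    exact h1.symm
  refine ⟨?_, fun d => ?_⟩
  · rw [h0]
    exact BT_aeval hz.1 Q
  · rw [← Polynomial.aeval_algHom_apply]
    refine stab_rep (s := s) (N := N) ?_ σ hQ (hz.2 d)
    rw [Polynomial.aeval_algHom_apply, hz0, map_zero]

theorem aeval_prod (x : Matrix (Fin r) (Fin r) ℂ) (y : Matrix I I ℂ) (Q : ℂ[X]) :
    aeval ((x, y) : R2 r I) Q = (aeval x Q, aeval y Q) := by
  have h1 := Polynomial.aeval_algHom_apply (AlgHom.fst ℂ (Matrix (Fin r) (Fin r) ℂ)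
    (Matrix I I ℂ)) ((x, y) : R2 r I) Q
  have h2 := Polynomial.aeval_algHom_apply (AlgHom.snd ℂ (Matrix (Fin r) (Fin r) ℂ)
    (Matrix I I ℂ)) ((x, y) : R2 r I) Q
  exact Prod.ext h1.symm h2.symm

theorem nodal_dvd_pow {s t : Finset ℂ} (h : s ⊆ t) {m n : ℕ} (hmn : m ≤ n) :
    Lagrange.nodal s (id : ℂ → ℂ) ^ m ∣ Lagrange.nodal t id ^ n := by
  refine (pow_dvd_pow_of_dvd (nodal_dvd fun a ha => ?_) m).trans (pow_dvd_pow _ hmn)
  exact Lagrange.eval_nodal_at_node (v := id) (h ha)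

/-- **Replicas of pairs.** -/
theorem PP_rep {x : Matrix (Fin r) (Fin r) ℂ} {y : Matrix I I ℂ} {sx sy : Finset ℂ} {N : ℕ}
    (hx : aeval x (Lagrange.nodal sx id ^ N) = 0) (hy : aeval y (Lagrange.nodal sy id) = 0)
    (hz : ((x, y) : R2 r I) ∈ PP lev H) (σ : ℂ →+ ℂ) {Q : ℂ[X]} (hQ : ∀ a ∈ sy, Q.eval a = σ a) :
    ∃ x' : Matrix (Fin r) (Fin r) ℂ, ((x', aeval y Q) : R2 r I) ∈ PP lev H ∧
      ((∀ a ∈ sx, σ a = 0) → x' = 0) := by
  classical
  obtain ⟨Q', hQ'⟩ := exists_crt (sx ∪ sy) (N + 1) σ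
  have h0 : aeval ((x, y) : R2 r I) (Lagrange.nodal (sx ∪ sy) id ^ (N + 1)) = 0 := by
    rw [aeval_prod]
    refine Prod.ext ?_ ?_
    · obtain ⟨P, hP⟩ := nodal_dvd_pow (Finset.subset_union_left (s₁ := sx) (s₂ := sy))
        (Nat.le_succ N)
      change aeval x (Lagrange.nodal (sx ∪ sy) id ^ (N + 1)) = 0
      rw [hP, map_mul, hx, zero_mul]
    · obtain ⟨P, hP⟩ := nodal_dvd_pow (Finset.subset_union_right (s₁ := sx) (s₂ := sy))
        (Nat.succ_le_succ (Nat.zero_le N))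
      change aeval y (Lagrange.nodal (sx ∪ sy) id ^ (N + 1)) = 0
      rw [hP, map_mul, pow_one, hy, zero_mul]
  have h1 := PP_aeval h0 σ hQ' hz
  rw [aeval_prod] at h1
  have h2 : aeval y Q' = aeval y Q := by
    refine aeval_congr hy fun a ha => ?_
    rw [hQ a ha]
    have h3 := (dvd_pow_self (X - C a : ℂ[X]) (Nat.succ_ne_zero N)).trans
      (hQ' a (Finset.mem_union_right _ ha))
    rw [dvd_iff_isRoot, IsRoot.def, eval_sub, eval_C, sub_eq_zero] at h3
    exact h3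
  rw [h2] at h1
  refine ⟨_, h1, fun hσ => ?_⟩
  refine aeval_zero_of hx fun a ha => ?_
  have h3 := hQ' a (Finset.mem_union_left _ ha)
  rw [hσ a ha, C_0, sub_zero] at h3
  exact (pow_dvd_pow _ (Nat.le_succ N)).trans h3

/-- annihilating polynomials -/
theorem exists_ann (x : Matrix (Fin r) (Fin r) ℂ) :
    ∃ s : Finset ℂ, aeval x (Lagrange.nodal s id ^ r) = 0 := by
  have hd : x.charpoly.natDegree = r := by
    rw [Matrix.charpoly_natDegree_eq_dim, Fintype.card_fin]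
  obtain ⟨Q, hQ⟩ := dvd_nodal (Matrix.charpoly_monic x) hd.le
  refine ⟨x.charpoly.roots.toFinset, ?_⟩
  rw [hQ, map_mul, Matrix.aeval_self_charpoly, zero_mul]

/-- replicas, without control of the first component -/
theorem PP_rep' {x : Matrix (Fin r) (Fin r) ℂ} {y : Matrix I I ℂ} {sy : Finset ℂ}
    (hy : aeval y (Lagrange.nodal sy id) = 0)
    (hz : ((x, y) : R2 r I) ∈ PP lev H) (σ : ℂ →+ ℂ) {Q : ℂ[X]} (hQ : ∀ a ∈ sy, Q.eval a = σ a) :
    ∃ x' : Matrix (Fin r) (Fin r) ℂ, ((x', aeval y Q) : R2 r I) ∈ PP lev H := by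
  obtain ⟨s, hs⟩ := exists_ann x
  obtain ⟨x', h1, -⟩ := PP_rep hs hy hz σ hQ
  exact ⟨x', h1⟩

/-- The derivatives of the periods. -/
theorem PP_der (hH : AlgGrp QQ H) {C C' : Matrix (Fin r) (Fin r) ℂ} {P P' : Matrix I I ℂ}
    (hC : C * C' = 1) (hP : P * P' = 1) (hB : BT lev C) (hB' : BT lev C')
    {T T' : Matrix (Fin r ⊕ I) (Fin r ⊕ I) ℂ} (hT : T * T' = 1) (hT' : ∀ i j, T' i j ∈ QA)
    (hpt : fromBlocks C 0 0 P * T ∈ H) (D : Derivation QBar ℂ ℂ) :
    ((C.map D * C', P.map D * P') : R2 r I) ∈ PP lev H := by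
  refine ⟨?_, fun d => ?_⟩
  · have h1 : BT lev (C.map D) := fun i j hij => by
      rw [Matrix.map_apply, hB i j hij, map_zero]
    exact h1.mul hB'
  · have e1 : fromBlocks C 0 0 P * fromBlocks C' 0 0 P' =
        (1 : Matrix (Fin r ⊕ I) (Fin r ⊕ I) ℂ) := by
      rw [fromBlocks_multiply]
      simp only [Matrix.mul_zero, Matrix.zero_mul, add_zero, zero_add]
      rw [hC, hP, fromBlocks_one]
    have e2 : fromBlocks C' 0 0 P' * fromBlocks C 0 0 P =
        (1 : Matrix (Fin r ⊕ I) (Fin r ⊕ I) ℂ) := mul_eq_one_comm.1 e1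
    have e3 := hH.stab_der QQ_le_QA (fun x hx => mem_QA.1 hx) e1 e2 hT hT' hpt (d := d) (derQ D)
    convert e3 using 1
    rw [bd_apply, fromBlocks_map, fromBlocks_multiply]
    have e6 : (0 : Matrix (Fin r) I ℂ).map (derQ D) = 0 := by
      ext i j
      exact map_zero (derQ D)
    have e7 : (0 : Matrix I (Fin r) ℂ).map (derQ D) = 0 := by
      ext i j
      exact map_zero (derQ D)
    rw [e6, e7]
    simp only [Matrix.mul_zero, Matrix.zero_mul, add_zero, zero_add]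
    rfl

end Pool.Agent.H621.RK
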