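import Pool.Agent.H621.RK.Cpl
import Pool.Agent.R917.DT.Fct

set_option autoImplicit false
set_option linter.unusedSectionVars false

/-!
# Objects with graded pieces of rank one
-/

open Module Matrix Polynomial

noncomputable section

namespace Pool.Agent.H621.RK

open Pool.Agent.Y102 Pool.Agent.W516.DR Pool.Agent.H204R3.GP Pool.Agent.W516.KC
  Pool.Agent.H204R3.SP Pool.Agent.TH119.MX Pool.Agent.R917 Pool.Agent.R917.DT
  Pool.Agent.R917.EC Pool.Agent.H621.BC Pool.Agent.R917.OM

/-- matrices in the `k`-th step of the filtration -/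
def BTk {r K : ℕ} (lev : Fin r → Fin K) (k : ℕ) (x : Matrix (Fin r) (Fin r) ℂ) : Prop :=
  ∀ i j, (lev j : ℕ) < lev i + k → x i j = 0

section btk

variable {r K : ℕ} {lev : Fin r → Fin K}

theorem BTk.zero_iff {x : Matrix (Fin r) (Fin r) ℂ} : BTk lev 0 x ↔ BT lev x :=
  ⟨fun h i j hij => h i j hij, fun h i j hij => h i j hij⟩

theorem BTk.add {k : ℕ} {x y : Matrix (Fin r) (Fin r) ℂ} (hx : BTk lev k x) (hy : BTk lev k y) :
    BTk lev k (x + y) := fun i j hij => by
  rw [Matrix.add_apply, hx i j hij, hy i j hij, add_zero]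

theorem BTk.smul {k : ℕ} {x : Matrix (Fin r) (Fin r) ℂ} (a : ℂ) (hx : BTk lev k x) :
    BTk lev k (a • x) := fun i j hij => by
  rw [Matrix.smul_apply, hx i j hij, smul_zero]

theorem BTk.zero {k : ℕ} : BTk lev k 0 := fun i j _ => rfl

theorem BTk.mul {k l : ℕ} {x y : Matrix (Fin r) (Fin r) ℂ} (hx : BTk lev k x)
    (hy : BTk lev l y) : BTk lev (k + l) (x * y) := by
  intro i j hij
  rw [Matrix.mul_apply]
  refine Finset.sum_eq_zero fun m _ => ?_
  by_cases h : (lev m : ℕ) < lev i + k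
  · rw [hx i m h, zero_mul]
  · rw [hy m j (by omega), mul_zero]

theorem BTk.br {k : ℕ} (hinj : Function.Injective lev) {x y : Matrix (Fin r) (Fin r) ℂ}
    (hx : BTk lev k x) (hy : BTk lev k y) : BTk lev (k + 1) (x * y - y * x) := by
  intro i j hij
  rw [Matrix.sub_apply]
  rcases Nat.eq_zero_or_pos k with rfl | hk
  · rcases Nat.lt_or_ge (lev j : ℕ) (lev i) with h | h
    · rw [(hx.mul hy) i j (by omega), (hy.mul hx) i j (by omega), sub_zero]
    · have h1 : lev i = lev j := by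
        apply Fin.ext
        omega
      have h2 : i = j := hinj h1
      subst h2
      rw [Matrix.mul_apply, Matrix.mul_apply, ← Finset.sum_sub_distrib]
      refine Finset.sum_eq_zero fun m _ => ?_
      rcases lt_trichotomy (lev m : ℕ) (lev i) with h3 | h3 | h3
      · rw [hx i m (by omega), hy i m (by omega), zero_mul, zero_mul, sub_zero]
      · have h4 : m = i := hinj (Fin.ext h3)
        subst h4
        ring
      · rw [hx m i (by omega), hy m i (by omega), mul_zero, mul_zero, sub_zero]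
  · rw [(hx.mul hy) i j (by omega), (hy.mul hx) i j (by omega), sub_zero]

theorem BTk.eq_zero {x : Matrix (Fin r) (Fin r) ℂ} (hx : BTk lev K x) : x = 0 := by
  ext i j
  exact hx i j (by have := (lev j).2; omega)

end btk

variable {r K h : ℕ} {A : AbVar h} {lev : Fin r → Fin K}
  {H : Set (Matrix (Fin r ⊕ Fin (2 * h)) (Fin r ⊕ Fin (2 * h)) ℂ)}

theorem nn_le_hb : nn A lev H ≤ hb A lev H := fun _ hX => ⟨hX.1, 0, hX.2⟩

/-- lifts in the steps of the filtration -/
theorem der_lift (hpt : PtR A lev H) (hinj : Function.Injective lev) (k : ℕ) :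
    ∀ Y ∈ der (hb A lev H), ∃ x : Matrix (Fin r) (Fin r) ℂ, BTk lev k x ∧
      ((x, rm Y) : R2 r (Fin (2 * h))) ∈ PP lev H := by
  have hf := hb_full hpt
  induction k with
  | zero =>
    intro Y hY
    obtain ⟨-, x, hx⟩ := hf.der_le hY
    exact ⟨x, BTk.zero_iff.2 hx.1, hx⟩
  | succ k ih =>
    intro Y hY
    have h1 := hf.perfect hY
    clear hY
    induction h1 using Submodule.span_induction with
    | mem Y h2 =>
      obtain ⟨X, hX, Z, hZ, rfl⟩ := h2
      obtain ⟨x, hx, hx'⟩ := ih X hX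
      obtain ⟨z, hz, hz'⟩ := ih Z hZ
      refine ⟨z * x - x * z, hz.br hinj hx, ?_⟩
      rw [rm_br]
      exact PP_br hz' hx'
    | zero =>
      refine ⟨0, BTk.zero, ?_⟩
      rw [rm_zero]
      exact (PP lev H).zero_mem
    | add a b _ _ ha hb =>
      obtain ⟨x, hx, hx'⟩ := ha
      obtain ⟨y, hy, hy'⟩ := hb
      refine ⟨x + y, hx.add hy, ?_⟩
      rw [rm_add]
      exact (PP lev H).add_mem hx' hy'
    | smul c a _ ha =>
      obtain ⟨x, hx, hx'⟩ := ha
      refine ⟨(c : ℂ) • x, hx.smul _, ?_⟩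
      rw [rm_smul]
      exact (PP lev H).smul_mem _ hx'

theorem der_le_nn (hpt : PtR A lev H) (hinj : Function.Injective lev) :
    der (hb A lev H) ≤ nn A lev H := by
  intro Y hY
  obtain ⟨x, hx, hx'⟩ := der_lift hpt hinj K Y hY
  rw [hx.eq_zero] at hx'
  exact ⟨(hb_full hpt).le ((hb_full hpt).der_le hY), hx'⟩

theorem rm_real (Y : Module.End ℚ A.H1) : RealM (rm Y) := by
  intro i j
  change cj (((Y (eb A i) j : ℚ) : ℂ)) = _
  exact map_ratCast cj _

/-- A linear map which is zero on a subspace and the identity on another one. -/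
theorem exists_sigma (U : Submodule ℚ ℂ) (hU : ∀ v ∈ U, cj v = -v → v = 0) :
    ∃ σ : ℂ →ₗ[ℚ] ℂ, (∀ u ∈ U, σ u = 0) ∧ ∀ v, cj v = -v → σ v = v := by
  let V : Submodule ℚ ℂ :=
    { carrier := {v | cj v = -v}
      zero_mem' := by
        change cj 0 = -0
        rw [map_zero, neg_zero]
      add_mem' := fun {a b} ha hb => by
        change cj (a + b) = -(a + b)
        rw [map_add, ha, hb]
        ring
      smul_mem' := fun c a ha => by
        change cj (c • a) = -(c • a)
        rw [Rat.smul_def, map_mul, map_ratCast, ha, mul_neg] }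
  let f : V →ₗ[ℚ] (ℂ ⧸ U) := U.mkQ.comp V.subtype
  have hf : LinearMap.ker f = ⊥ := by
    rw [LinearMap.ker_eq_bot']
    intro v hv
    rw [LinearMap.comp_apply, Submodule.mkQ_apply, Submodule.Quotient.mk_eq_zero] at hv
    exact Subtype.ext (hU v.1 hv v.2)
  obtain ⟨q, hq⟩ := LinearMap.exists_leftInverse_of_injective f hf
  refine ⟨V.subtype.comp (q.comp U.mkQ), fun u hu => ?_, fun v hv => ?_⟩
  · rw [LinearMap.comp_apply, LinearMap.comp_apply, Submodule.mkQ_apply,
      (Submodule.Quotient.mk_eq_zero U).2 hu, map_zero, map_zero]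
  · have h1 := congrArg (fun F : V →ₗ[ℚ] V => F ⟨v, hv⟩) hq
    exact congrArg Subtype.val h1

/-- **Objects with graded pieces of rank one.** -/
theorem hb_le_nn (hpt : PtR A lev H) (h1 : ∀ l : Fin K, Fintype.card {i // lev i = l} ≤ 1) :
    hb A lev H ≤ nn A lev H := by
  classical
  have hinj : Function.Injective lev := by
    intro i j hij
    have h2 := Fintype.card_le_one_iff.1 (h1 (lev j)) ⟨i, hij⟩ ⟨j, rfl⟩
    exact congrArg Subtype.val h2
  have hf := hb_full hpt
  intro X hX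
  obtain ⟨Z, hZ, d, hd, rfl, hc⟩ := hf.dec hX
  refine (nn A lev H).add_mem ?_ (der_le_nn hpt hinj hd)
  have hcNA : ∀ Y ∈ A.NA, Z * Y = Y * Z := fun Y hY => (hf.comm Z (fun Y hY => (hc Y hY).symm)
    Y hY).symm
  obtain ⟨t, ht, hN⟩ := imag_roots (hf.le hZ) hcNA
  obtain ⟨hZN, x, hx⟩ := hZ
  obtain ⟨x', hr, hx'⟩ := real_lift hpt.grp hx (rm_real Z)
  obtain ⟨s, T, hs, hT, hsT⟩ := imag_count hx'.1 hr
  have hT0 : T = ∅ := by
    rw [← Finset.card_eq_zero]
    refine Nat.le_zero.1 (hT.trans (le_of_eq ?_))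
    refine Finset.sum_eq_zero fun l _ => ?_
    have := h1 l
    omega
  obtain ⟨σ, hσ1, hσ2⟩ := exists_sigma (Submodule.span ℚ (s : Set ℂ)) fun v hv hcv => by
    have h2 := hsT v hv hcv
    rw [hT0, Finset.coe_empty, Submodule.span_empty, Submodule.mem_bot] at h2
    exact h2
  obtain ⟨x'', h3, h4⟩ := PP_rep hs hN hx' σ.toAddMonoidHom (Q := X) fun a ha => by
    rw [eval_X]
    refine (hσ2 a ?_).symm
    apply Complex.ext
    · rw [Complex.conj_re, Complex.neg_re, ht a ha, neg_zero]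
    · rw [Complex.conj_im, Complex.neg_im]
  rw [h4 fun a ha => hσ1 a (Submodule.subset_span ha), aeval_X] at h3
  exact ⟨hZN, h3⟩

/-- the elements `X0` -/
theorem X0_hb (hpt : PtR A lev H) (D : Derivation QBar ℂ ℂ) (lam : ℂ →ₗ[ℚ] ℚ) :
    X0 A.basis tau D lam ∈ hb A lev H := by
  rw [hb_eq hpt]
  exact ⟨(X0_lift hpt D lam).1, _, (X0_lift hpt D lam).2⟩

/-- The complex structure. -/
theorem J_hb (hpt : PtR A lev H) (hJ : DetJ A) (t : ℝ →ₗ[ℚ] ℚ) :
    A.cmpE t AbVar.JJ ∈ hb A lev H :=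
  hJ (hb A lev H) (fun _ hX => hX.1) (fun X hX Y hY => by
    rw [hb_eq hpt] at hX hY
    exact ha_br hX hY) (X0_hb hpt) (hb_RC hpt) t

end Pool.Agent.H621.RK
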