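import Pool.Agent.H621.RK.Tate
import Pool.Agent.R917.DT.Mat
import Pool.Agent.R917.DT.Rig

set_option autoImplicit false
set_option linter.unusedSectionVars false

/-!
# Exponentials of the generators of tori, and replicas in terms of matrices
-/

open Module Matrix Polynomial

noncomputable section

namespace Pool.Agent.H621.RK

open Pool.Agent.Y102 Pool.Agent.W516.DR Pool.Agent.H204R3.GP Pool.Agent.W516.KC
  Pool.Agent.H204R3.SP Pool.Agent.TH119.MX Pool.Agent.R917 Pool.Agent.R917.DT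
  Pool.Agent.R917.EC Pool.Agent.H621.BC Pool.Agent.R917.OM

section norms

attribute [local instance] Matrix.linftyOpNormedRing Matrix.linftyOpNormedAlgebra

variable {I : Type} [Fintype I] [DecidableEq I] {ι : Type} [Fintype ι] [DecidableEq ι]
  {P : ι → Matrix I I ℂ}

/-- the algebra of the combinations of the projectors -/
def Prj.hom (hP : Prj P) : (ι → ℂ) →+* Matrix I I ℂ where
  toFun m := ∑ a, m a • P a
  map_one' := by
    rw [← hP.sum]
    exact Finset.sum_congr rfl fun a _ => by rw [Pi.one_apply, one_smul]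
  map_mul' m m' := by
    rw [hP.mul_sum]
    rfl
  map_zero' := Finset.sum_eq_zero fun a _ => by rw [Pi.zero_apply, zero_smul]
  map_add' m m' := by
    rw [← Finset.sum_add_distrib]
    exact Finset.sum_congr rfl fun a _ => by rw [Pi.add_apply, add_smul]

theorem Prj.exp (hP : Prj P) (m : ι → ℂ) :
    NormedSpace.exp (∑ a, m a • P a) = ∑ a, Complex.exp (m a) • P a := by
  have h1 : Continuous hP.hom := by
    change Continuous fun m : ι → ℂ => ∑ a, m a • P a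
    exact continuous_finset_sum _ fun a _ => (continuous_apply a).smul continuous_const
  have h2 := NormedSpace.map_exp hP.hom h1 m
  refine h2.symm.trans ?_
  change ∑ a, (NormedSpace.exp m) a • P a = _
  refine Finset.sum_congr rfl fun a _ => ?_
  rw [Pi.coe_exp, ← Complex.exp_eq_exp_ℂ]

end norms

variable {r K h : ℕ} {A : AbVar h} {lev : Fin r → Fin K}
  {H : Set (Matrix (Fin r ⊕ Fin (2 * h)) (Fin r ⊕ Fin (2 * h)) ℂ)}

/-- The image of the circle. -/
theorem hodge_PP (hH : AlgGrp QQ H)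
    (hJ : ((0, hm A Complex.I) : R2 r (Fin (2 * h))) ∈ PP lev H) {z : ℂ} (hz : ‖z‖ = 1) :
    fromBlocks 1 0 0 (hm A z) ∈ H := by
  obtain ⟨t, ht⟩ : ∃ t : ℝ, Complex.exp (t * Complex.I) = z := by
    refine ⟨Complex.arg z, ?_⟩
    have h2 := Complex.norm_mul_exp_arg_mul_I z
    rwa [hz, Complex.ofReal_one, one_mul] at h2
  have h2 := exp_mem hH (X := (t : ℂ) • fromBlocks 0 0 0 (hm A Complex.I))
    fun d => (hJ.2 d).smul _
  rw [exp_blk, ht] at h2
  exact h2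

/-- components of elements of the complex span -/
theorem comp_of_span {𝔥 : Submodule ℚ (Module.End ℚ A.H1)}
    {y : Matrix (Fin (2 * h)) (Fin (2 * h)) ℂ}
    (hy : y ∈ Submodule.span ℂ {Z | ∃ Y ∈ 𝔥, Z = rm Y}) :
    ∀ lam : ℂ →ₗ[ℚ] ℚ, ∃ Y ∈ 𝔥, rm Y = y.map (lamF lam) := by
  induction hy using Submodule.span_induction with
  | mem Z hZ =>
    obtain ⟨Y, hY, rfl⟩ := hZ
    intro lam
    refine ⟨(lam 1) • Y, 𝔥.smul_mem _ hY, ?_⟩
    rw [rm_smul]
    ext i j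
    rw [Matrix.smul_apply, Matrix.map_apply, lamF_apply, smul_eq_mul]
    change _ * ((Y (eb A i) j : ℚ) : ℂ) = ((lam ((Y (eb A i) j : ℚ) : ℂ) : ℚ) : ℂ)
    have h1 : ((Y (eb A i) j : ℚ) : ℂ) = (Y (eb A i) j) • (1 : ℂ) := by
      rw [Rat.smul_def, mul_one]
    conv_rhs => rw [h1, map_smul, smul_eq_mul]
    push_cast
    ring
  | zero =>
    intro lam
    refine ⟨0, 𝔥.zero_mem, ?_⟩
    rw [rm_zero]
    ext i j
    exact (map_zero (lamF lam)).symm
  | add a b _ _ ha hb =>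
    intro lam
    obtain ⟨Y, hY, h1⟩ := ha lam
    obtain ⟨Z, hZ, h2⟩ := hb lam
    refine ⟨Y + Z, 𝔥.add_mem hY hZ, ?_⟩
    rw [rm_add, h1, h2]
    ext i j
    exact (map_add (lamF lam) _ _).symm
  | smul c a _ ha =>
    intro lam
    obtain ⟨Y, hY, h1⟩ := ha (lam ∘ₗ LinearMap.mulLeft ℚ c)
    refine ⟨Y, hY, ?_⟩
    rw [h1]
    ext i j
    rfl

/-- Closure under replicas. -/
theorem rc_iff' {𝔥 : Submodule ℚ (Module.End ℚ A.H1)} : RC 𝔥 ↔
    ∀ X ∈ 𝔥, ∀ (S : Finset ℂ) (σ : ℂ →+ ℂ) (Q : Polynomial ℂ),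
      Polynomial.aeval (rm X) (∏ a ∈ S, (Polynomial.X - Polynomial.C a)) = 0 →
      (∀ a ∈ S, Q.eval a = σ a) →
      Polynomial.aeval (rm X) Q ∈ Submodule.span ℂ {Y | ∃ Z ∈ 𝔥, Y = rm Z} := by
  constructor
  · intro h1 X hX S σ Q hS hQ
    refine mem_span_comp fun lam => ?_
    obtain ⟨Y, hY, -⟩ := exists_rm (A := A) (aeval (rm X) Q) lam
    exact ⟨Y, h1 X hX S hS σ Q hQ lam Y hY, hY⟩
  · intro h1 X hX S hS σ Q hQ lam X' hX'
    obtain ⟨Y, hY, h2⟩ := comp_of_span (h1 X hX S σ Q hS hQ) lam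
    rw [← hX'] at h2
    rwa [← rm_inj' h2]

/-- The complex structure is in the span. -/
theorem J_span {𝔥 : Submodule ℚ (Module.End ℚ A.H1)}
    (hJ : ∀ t : ℝ →ₗ[ℚ] ℚ, A.cmpE t AbVar.JJ ∈ 𝔥) :
    hm A Complex.I ∈ Submodule.span ℂ {Y | ∃ Z ∈ 𝔥, Y = rm Z} := by
  refine mem_span_comp fun lam => ⟨_, hJ (OM.fr lam), ?_⟩
  rw [rm_eq, hm_comp]

theorem J_NA (t : ℝ →ₗ[ℚ] ℚ) : A.cmpE t AbVar.JJ ∈ A.NA := A.MA_le_NA (A.J_mem t)

end Pool.Agent.H621.RK
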